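import Pool.Agent.Helper11.MRA.Defs

/-!
# MRA-01 Basic: laws and logarithmic means

`LS X = ∑_{n ≤ X} 1/n`, `law X f a = (∑_{n ≤ X, f n = a} 1/n) / LS X`.

* `LS_pos`: the term `n = 1` is `1`.
* `LS_ge`, `LS_le`: `log X ≤ ∑_{n ≤ X} 1/n ≤ 1 + log X` (Mathlib: `log_add_one_le_harmonic`,
  `harmonic_le_one_add_log`; `harmonic` is a rational sum over `range`).
* `EL_eq`: group the sum by the value of `f` (`Finset.sum_fiberwise`).
* `law_sum`: `EL_eq` with `F = 1`.
* `law_fst`, `law_snd`: marginals (again fibers).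
* `ent_nonneg`: `Real.negMulLog_nonneg`.
-/

set_option autoImplicit false

namespace MRA

open Finset MRP

theorem LS_nonneg (X : ℕ) : 0 ≤ LS X := by
  unfold LS
  exact Finset.sum_nonneg fun n _ => by positivity

theorem LS_pos {X : ℕ} (hX : 1 ≤ X) : 0 < LS X := by
  unfold LS
  refine Finset.sum_pos (fun n hn => ?_) ⟨1, Finset.mem_Icc.2 ⟨le_rfl, hX⟩⟩
  have h1 : (0 : ℝ) < n := by
    have := (Finset.mem_Icc.1 hn).1
    exact_mod_cast this
  positivity

theorem LS_harmonic (X : ℕ) : LS X = ((harmonic X : ℚ) : ℝ) := by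
  unfold LS
  rw [harmonic_eq_sum_Icc]
  push_cast
  refine Finset.sum_congr rfl fun n _ => ?_
  rw [one_div]

theorem LS_ge {X : ℕ} (hX : 1 ≤ X) : Real.log X ≤ LS X := by
  rw [LS_harmonic]
  refine le_trans ?_ (log_add_one_le_harmonic X)
  have h1 : (0 : ℝ) < X := by exact_mod_cast hX
  exact Real.log_le_log h1 (by push_cast; linarith)

theorem LS_le {X : ℕ} (hX : 1 ≤ X) : LS X ≤ 1 + Real.log X := by
  rw [LS_harmonic]
  exact harmonic_le_one_add_log X

theorem law_nonneg {α : Type} [DecidableEq α] (X : ℕ) (f : ℕ → α) (a : α) : 0 ≤ law X f a := by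
  unfold law
  exact div_nonneg (Finset.sum_nonneg fun n _ => by positivity) (LS_nonneg X)

theorem EL_eq {α : Type} [Fintype α] [DecidableEq α] (X : ℕ) (f : ℕ → α) (F : α → ℝ) :
    EL X (fun n => F (f n)) = ∑ a : α, law X f a * F a := by
  unfold EL law
  have h : ∀ a : α, (∑ n ∈ (Icc 1 X).filter (fun n => f n = a), 1 / (n : ℝ)) / LS X * F a =
      (∑ n ∈ (Icc 1 X).filter (fun n => f n = a), (1 / (n : ℝ)) * F (f n)) / LS X := by
    intro a
    rw [div_mul_eq_mul_div, Finset.sum_mul]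
    congr 1
    refine Finset.sum_congr rfl fun n hn => ?_
    rw [(Finset.mem_filter.1 hn).2]
  rw [Finset.sum_congr rfl fun a _ => h a, ← Finset.sum_div]
  congr 1
  exact (Finset.sum_fiberwise (Icc 1 X) f (fun n => (1 / (n : ℝ)) * F (f n))).symm

theorem law_sum {α : Type} [Fintype α] [DecidableEq α] {X : ℕ} (hX : 1 ≤ X) (f : ℕ → α) :
    ∑ a : α, law X f a = 1 := by
  have h := EL_eq X f (fun _ => (1 : ℝ))
  simp only [mul_one] at h
  rw [← h]
  unfold EL
  have h2 : ∑ n ∈ Icc 1 X, (1 / (n : ℝ)) * 1 = LS X := by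
    unfold LS
    simp
  rw [h2]
  exact div_self (LS_pos hX).ne'

theorem law_le_one {α : Type} [DecidableEq α] (X : ℕ) (f : ℕ → α) (a : α) : law X f a ≤ 1 := by
  unfold law
  refine div_le_one_of_le₀ ?_ (LS_nonneg X)
  unfold LS
  exact Finset.sum_le_sum_of_subset_of_nonneg (Finset.filter_subset _ _)
    fun n _ _ => by positivity

theorem law_fst {α β : Type} [Fintype β] [DecidableEq α] [DecidableEq β] (X : ℕ) (f : ℕ → α)
    (g : ℕ → β) (a : α) : ∑ b : β, law X (fun n => (f n, g n)) (a, b) = law X f a := by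
  unfold law
  rw [← Finset.sum_div]
  congr 1
  rw [← Finset.sum_fiberwise ((Icc 1 X).filter (fun n => f n = a)) g (fun n => 1 / (n : ℝ))]
  refine Finset.sum_congr rfl fun b _ => ?_
  rw [Finset.filter_filter]
  refine Finset.sum_congr ?_ fun _ _ => rfl
  refine Finset.filter_congr fun n _ => ?_
  simp only [Prod.mk.injEq]

theorem law_snd {α β : Type} [Fintype α] [DecidableEq α] [DecidableEq β] (X : ℕ) (f : ℕ → α)
    (g : ℕ → β) (b : β) : ∑ a : α, law X (fun n => (f n, g n)) (a, b) = law X g b := by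
  unfold law
  rw [← Finset.sum_div]
  congr 1
  rw [← Finset.sum_fiberwise ((Icc 1 X).filter (fun n => g n = b)) f (fun n => 1 / (n : ℝ))]
  refine Finset.sum_congr rfl fun a _ => ?_
  rw [Finset.filter_filter]
  refine Finset.sum_congr ?_ fun _ _ => rfl
  refine Finset.filter_congr fun n _ => ?_
  simp only [Prod.mk.injEq]
  exact and_comm

theorem ent_nonneg {α : Type} [Fintype α] [DecidableEq α] (X : ℕ) (f : ℕ → α) :
    0 ≤ ent X f := by
  unfold ent
  exact Finset.sum_nonneg fun a _ => Real.negMulLog_nonneg (law_nonneg X f a) (law_le_one X f a)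

end MRA
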