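import Pool.Agent.Helper11.MRA.Submod
import Pool.Agent.Helper11.MRA.Factor

/-!
# MRA-05 Chain: subadditivity of the conditional entropy

`H(f_0, ..., f_{k-1}, y) ≤ H(y) + ∑_{i<k} (H(f_i, y) - H(y))`.
Induction on `k`.  `k = 0`: the pair `((fun i : Fin 0 => ..), y n)` is determined by `y n`
(`ent_factor`).  Step: `((f_0..f_k), y)` is determined by `((f_0..f_{k-1}), f_k, y)`
(`ent_factor`), and `submod` gives
`H((f_0..f_{k-1}), f_k, y) ≤ H((f_0..f_{k-1}), y) + H(f_k, y) - H(y)`.

`word_chain`: a word of length `k * L` is determined by the `k` words of length `L` at the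
positions `n, n + L, ..., n + (k-1) L`, hence
`H(word of length kL) ≤ H(y) + ∑_{i<k} (H(word c L (n + i L), y) - H(y))`.
-/

set_option autoImplicit false

namespace MRA

open Finset MRP

theorem chain {α β : Type} [Fintype α] [Fintype β] [DecidableEq α] [DecidableEq β] {X : ℕ}
    (hX : 1 ≤ X) (f : ℕ → ℕ → α) (y : ℕ → β) (k : ℕ) :
    ent X (fun n => ((fun i : Fin k => f (i : ℕ) n), y n)) ≤
      ent X y + ∑ i ∈ range k, (ent X (fun n => (f i n, y n)) - ent X y) := by
  induction k with
  | zero =>
    rw [Finset.sum_range_zero, add_zero]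
    refine ent_factor hX _ y ?_
    intro n m _ _ _ _ h
    exact Prod.ext (funext fun i => i.elim0) h
  | succ k ih =>
    rw [Finset.sum_range_succ]
    have h1 : ent X (fun n => ((fun i : Fin (k + 1) => f (i : ℕ) n), y n)) ≤
        ent X (fun n => ((fun i : Fin k => f (i : ℕ) n), f k n, y n)) := by
      refine ent_factor hX _ _ ?_
      intro n m _ _ _ _ h
      have ha := congrArg Prod.fst h
      have hb := congrArg (fun z => z.2.1) h
      have hc := congrArg (fun z => z.2.2) h
      simp only at ha hb hc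
      refine Prod.ext (funext fun i => ?_) hc
      by_cases hi : (i : ℕ) < k
      · exact congrFun ha ⟨i, hi⟩
      · have : (i : ℕ) = k := by
          have := i.2
          omega
        simp only [this]
        exact hb
    have h2 := submod hX (fun n => (fun i : Fin k => f (i : ℕ) n)) (f k) y
    linarith

theorem word_chain {β : Type} [Fintype β] [DecidableEq β] {X : ℕ} (hX : 1 ≤ X)
    (c : ℕ → Bool × Bool) (y : ℕ → β) (k L : ℕ) :
    ent X (word c (k * L)) ≤
      ent X y + ∑ i ∈ range k, (ent X (fun n => (word c L (n + i * L), y n)) - ent X y) := by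
  refine le_trans ?_ (chain hX (fun i n => word c L (n + i * L)) y k)
  refine ent_factor hX _ _ ?_
  intro n m _ _ _ _ h
  have ha := congrArg Prod.fst h
  simp only at ha
  funext j
  have hj := j.2
  have hL : 0 < L := by
    rcases Nat.eq_zero_or_pos L with h0 | h0
    · have : k * L = 0 := by rw [h0, Nat.mul_zero]
      omega
    · exact h0
  have hi : (j : ℕ) / L < k := Nat.div_lt_of_lt_mul (lt_of_lt_of_eq hj (Nat.mul_comm k L))
  have hr : (j : ℕ) % L < L := Nat.mod_lt _ hL
  have h1 := congrFun (congrFun ha ⟨(j : ℕ) / L, hi⟩) ⟨(j : ℕ) % L, hr⟩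
  simp only [word] at h1 ⊢
  have h2 : ∀ t : ℕ, t + (j : ℕ) / L * L + (j : ℕ) % L = t + (j : ℕ) := by
    intro t
    have := Nat.div_add_mod' (j : ℕ) L
    omega
  rw [h2, h2] at h1
  exact h1

end MRA
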