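import Pool.Agent.Helper11.MRA.Defs

/-!
# MRA-17 Cheb: Chebyshev's lower bound in `(P, 2P]`

`|{primes in (P, 2P]}| ≥ c P / log P` for `P ≥ P0`.
Proof (as in Bertrand's postulate, Mathlib `Mathlib/NumberTheory/Bertrand.lean`, where the lemma
`Nat.four_pow_lt_of_lt_factorization...`/`Bertrand.main_inequality` and the factorisation lemmas of
`Nat.centralBinom` in `Mathlib/Data/Nat/Choose/Factorization.lean` are):
`4^P / (2P) ≤ centralBinom P = ∏_{p ≤ 2P} p^{v_p}`.  Primes `p ≤ √(2P)` contribute `p^{v_p} ≤ 2P`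
each, primes `√(2P) < p ≤ 2P/3` at most `p` each (product `≤ 4^{2P/3}` by the primorial bound),
primes in `(2P/3, P]` contribute `1`, primes in `(P, 2P]` at most `2P` each.  Hence
`4^P/(2P) ≤ (2P)^{√(2P)} 4^{2P/3} (2P)^{|D|}`, i.e.
`|D| log (2P) ≥ (P/3) log 4 - (√(2P) + 1) log (2P)`, which is `≥ (P/4) log 4 ` for large `P`.
(Alternatively from `Chebyshev.theta` bounds in `Mathlib/NumberTheory/Chebyshev.lean` if they are
strong enough, or any prime counting result in the pool, e.g. `Pool/Agent/Helper16/SW`.)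
-/

set_option autoImplicit false

namespace MRA

open Finset MRP

private theorem cheb_term (P p : ℕ) (hP : 3 ≤ P) (hp : p.Prime) :
    p ^ (Nat.centralBinom P).factorization p ≤
      (if p ∈ dyP P then 2 * P else 1) * (if p ≤ 2 * P / 3 then p else 1) *
        (if p ≤ Nat.sqrt (2 * P) then 2 * P else 1) := by
  have hpos : 0 < 2 * P := by omega
  have h1 : 1 ≤ 2 * P := by omega
  have hpow : p ^ (Nat.centralBinom P).factorization p ≤ 2 * P := by
    rw [Nat.centralBinom_eq_two_mul_choose]
    exact Nat.pow_factorization_choose_le hpos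
  have hA : 1 ≤ (if p ∈ dyP P then 2 * P else 1) := by split_ifs <;> omega
  have hB : 1 ≤ (if p ≤ 2 * P / 3 then p else 1) := by
    split_ifs
    · exact hp.one_lt.le
    · exact le_refl _
  have hC : 1 ≤ (if p ≤ Nat.sqrt (2 * P) then 2 * P else 1) := by split_ifs <;> omega
  by_cases c1 : p ≤ Nat.sqrt (2 * P)
  · rw [if_pos c1]
    calc p ^ (Nat.centralBinom P).factorization p ≤ 2 * P := hpow
      _ = 1 * 1 * (2 * P) := by ring
      _ ≤ _ := by gcongr
  · have hlt : 2 * P < p ^ 2 := by
      have := Nat.lt_of_not_ge c1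
      rw [pow_two]
      exact Nat.sqrt_lt.1 this
    by_cases c2 : p ≤ 2 * P / 3
    · rw [if_pos c2]
      have hle1 : (Nat.centralBinom P).factorization p ≤ 1 := by
        rw [Nat.centralBinom_eq_two_mul_choose]
        exact Nat.factorization_choose_le_one hlt
      calc p ^ (Nat.centralBinom P).factorization p ≤ p ^ 1 :=
            Nat.pow_le_pow_right hp.pos hle1
        _ = 1 * p * 1 := by ring
        _ ≤ _ := by gcongr
    · by_cases c3 : p ≤ P
      · have h0 : (Nat.centralBinom P).factorization p = 0 :=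
          Nat.factorization_centralBinom_of_two_mul_self_lt_three_mul (by omega) c3 (by omega)
        rw [h0, pow_zero]
        calc 1 = 1 * 1 * 1 := by ring
          _ ≤ _ := by gcongr
      · by_cases c4 : p ≤ 2 * P
        · have hmem : p ∈ dyP P := by
            unfold dyP
            exact Finset.mem_filter.2 ⟨Finset.mem_Ioc.2 ⟨by omega, c4⟩, hp⟩
          rw [if_pos hmem]
          calc p ^ (Nat.centralBinom P).factorization p ≤ 2 * P := hpow
            _ = (2 * P) * 1 * 1 := by ring
            _ ≤ _ := by gcongr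
        · have h0 : (Nat.centralBinom P).factorization p = 0 :=
            Nat.factorization_centralBinom_eq_zero_of_two_mul_lt (by omega)
          rw [h0, pow_zero]
          calc 1 = 1 * 1 * 1 := by ring
            _ ≤ _ := by gcongr

private theorem cheb_nat (P : ℕ) (hP : 3 ≤ P) :
    4 ^ P ≤ (2 * P) ^ ((dyP P).card + Nat.sqrt (2 * P) + 1) * 4 ^ (2 * P / 3) := by
  have hpos : 0 < 2 * P := by omega
  have h4 := Nat.four_pow_le_two_mul_self_mul_centralBinom P (by omega)
  have hcb : Nat.centralBinom P ≤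
      (2 * P) ^ (dyP P).card * 4 ^ (2 * P / 3) * (2 * P) ^ (Nat.sqrt (2 * P)) := by
    set S := (Finset.range (2 * P + 1)).filter Nat.Prime with hS
    have hprod : Nat.centralBinom P =
        ∏ p ∈ S, p ^ (Nat.centralBinom P).factorization p := by
      conv_lhs => rw [← Nat.prod_pow_factorization_centralBinom P]
      rw [hS, Finset.prod_filter]
      refine Finset.prod_congr rfl fun p _ => ?_
      split_ifs with h
      · rfl
      · rw [Nat.factorization_eq_zero_of_not_prime _ h, pow_zero]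
    have hle : Nat.centralBinom P ≤ ∏ p ∈ S,
        ((if p ∈ dyP P then 2 * P else 1) * (if p ≤ 2 * P / 3 then p else 1) *
        (if p ≤ Nat.sqrt (2 * P) then 2 * P else 1)) := by
      calc Nat.centralBinom P = ∏ p ∈ S, p ^ (Nat.centralBinom P).factorization p := hprod
        _ ≤ _ := Finset.prod_le_prod' fun p hp =>
          cheb_term P p hP (Finset.mem_filter.1 hp).2
    rw [Finset.prod_mul_distrib, Finset.prod_mul_distrib] at hle
    refine hle.trans ?_
    gcongr ?_ * ?_ * ?_
    · rw [Finset.prod_ite, Finset.prod_const, Finset.prod_const_one, mul_one]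
      apply Nat.pow_le_pow_right hpos
      apply Finset.card_le_card
      intro p hp
      exact (Finset.mem_filter.1 hp).2
    · rw [← Finset.prod_filter]
      calc ∏ p ∈ S.filter (fun p => p ≤ 2 * P / 3), p
          ≤ ∏ p ∈ (Finset.range (2 * P / 3 + 1)).filter Nat.Prime, p := by
            apply Finset.prod_le_prod_of_subset_of_one_le'
            · intro p hp
              rw [Finset.mem_filter] at hp
              have h2 := (Finset.mem_filter.1 hp.1).2
              exact Finset.mem_filter.2 ⟨Finset.mem_range.2 (by omega), h2⟩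
            · intro p hp _
              exact (Finset.mem_filter.1 hp).2.one_lt.le
        _ ≤ 4 ^ (2 * P / 3) := primorial_le_four_pow _
    · rw [Finset.prod_ite, Finset.prod_const, Finset.prod_const_one, mul_one]
      apply Nat.pow_le_pow_right hpos
      calc (S.filter (fun p => p ≤ Nat.sqrt (2 * P))).card
          ≤ (Finset.Icc 1 (Nat.sqrt (2 * P))).card := by
            apply Finset.card_le_card
            intro p hp
            rw [Finset.mem_filter] at hp
            have h2 := (Finset.mem_filter.1 hp.1).2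
            exact Finset.mem_Icc.2 ⟨h2.one_lt.le, hp.2⟩
        _ = Nat.sqrt (2 * P) := by simp
  calc 4 ^ P ≤ 2 * P * Nat.centralBinom P := h4
    _ ≤ 2 * P * ((2 * P) ^ (dyP P).card * 4 ^ (2 * P / 3) * (2 * P) ^ (Nat.sqrt (2 * P))) := by
        gcongr
    _ = (2 * P) ^ ((dyP P).card + Nat.sqrt (2 * P) + 1) * 4 ^ (2 * P / 3) := by
        rw [pow_add, pow_add, pow_one]; ring

theorem cheb : ∃ c : ℝ, 0 < c ∧ ∃ P0 : ℕ, 3 ≤ P0 ∧ ∀ P : ℕ, P0 ≤ P →
    c * (P : ℝ) / Real.log P ≤ ((dyP P).card : ℝ) := by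
  have hl4 : (1 : ℝ) < Real.log 4 := by
    have h : Real.exp 1 < 4 := lt_trans Real.exp_one_lt_d9 (by norm_num)
    calc (1 : ℝ) = Real.log (Real.exp 1) := by simp
      _ < Real.log 4 := Real.log_lt_log (Real.exp_pos 1) h
  refine ⟨1 / 8, by norm_num, 10 ^ 12, by norm_num, fun P hP => ?_⟩
  have hP3 : 3 ≤ P := le_trans (by norm_num) hP
  have hPR : (10 : ℝ) ^ 12 ≤ (P : ℝ) := by exact_mod_cast hP
  have hPpos : (0 : ℝ) < (P : ℝ) := lt_of_lt_of_le (by norm_num) hPR
  set L := Real.log (2 * (P : ℝ)) with hL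
  have hLP : L ≤ 2 * Real.log P := by
    rw [hL, Real.log_mul (by norm_num) hPpos.ne']
    have : Real.log 2 ≤ Real.log P := Real.log_le_log (by norm_num) (by linarith)
    linarith
  have hlogP : 0 < Real.log P := Real.log_pos (by linarith)
  have hLpos : 0 < L := Real.log_pos (by linarith)
  -- the fourth root
  set x := Real.sqrt (Real.sqrt (2 * (P : ℝ))) with hx
  have hx2 : x ^ 2 = Real.sqrt (2 * (P : ℝ)) := Real.sq_sqrt (Real.sqrt_nonneg _)
  have hx4 : x ^ 4 = 2 * (P : ℝ) := by
    calc x ^ 4 = (x ^ 2) ^ 2 := by ring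
      _ = 2 * (P : ℝ) := by rw [hx2]; exact Real.sq_sqrt (by positivity)
  have hx0 : 0 ≤ x := Real.sqrt_nonneg _
  have hxbig : 1000 ≤ x := by
    by_contra hcon
    push Not at hcon
    have h1 : x ^ 4 < 1000 ^ 4 := pow_lt_pow_left₀ hcon hx0 (by norm_num)
    rw [hx4] at h1
    have h2 : (1000 : ℝ) ^ 4 = 10 ^ 12 := by norm_num
    rw [h2] at h1
    linarith
  have hLx : L ≤ 4 * x := by
    have h1 : L = 4 * Real.log x := by
      rw [hL, ← hx4, Real.log_pow]; push_cast; ring
    have h2 : Real.log x ≤ x := (Real.log_le_sub_one_of_pos (by linarith)).trans (by linarith)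
    rw [h1]; linarith
  have hsq : ((Nat.sqrt (2 * P) : ℕ) : ℝ) ≤ x ^ 2 := by
    rw [hx2]
    apply Real.le_sqrt_of_sq_le
    have := Nat.sqrt_le' (2 * P)
    exact_mod_cast this
  -- take logarithms
  have hnat := cheb_nat P hP3
  have hcast : (4 : ℝ) ^ P ≤
      (2 * (P : ℝ)) ^ ((dyP P).card + Nat.sqrt (2 * P) + 1) * 4 ^ (2 * P / 3) := by
    exact_mod_cast hnat
  have hlog := Real.log_le_log (by positivity) hcast
  rw [Real.log_pow, Real.log_mul (by positivity) (by positivity), Real.log_pow, Real.log_pow,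
    ← hL] at hlog
  have hfl : (((2 * P / 3 : ℕ)) : ℝ) ≤ 2 * (P : ℝ) / 3 := by
    have : (((2 * P / 3 : ℕ)) : ℝ) ≤ (((2 * P : ℕ)) : ℝ) / ((3 : ℕ) : ℝ) := Nat.cast_div_le
    push_cast at this
    exact this
  have hlog2 : (P : ℝ) * Real.log 4 ≤
      (((dyP P).card : ℝ) + x ^ 2 + 1) * L + 2 * (P : ℝ) / 3 * Real.log 4 := by
    refine hlog.trans ?_
    push_cast
    gcongr
  have hmain : (P : ℝ) / 4 ≤ ((dyP P).card : ℝ) * L := by
    have h1 : (x ^ 2 + 1) * L ≤ 8 * x ^ 3 := by
      have : x ^ 2 + 1 ≤ 2 * x ^ 2 := by nlinarith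
      calc (x ^ 2 + 1) * L ≤ (2 * x ^ 2) * (4 * x) := by
            apply mul_le_mul this hLx hLpos.le (by positivity)
        _ = 8 * x ^ 3 := by ring
    have h2 : 8 * x ^ 3 ≤ (P : ℝ) / 12 := by
      have : 1000 * x ^ 3 ≤ x ^ 4 := by
        have : 0 ≤ x ^ 3 := by positivity
        nlinarith
      rw [hx4] at this
      linarith
    nlinarith
  rw [div_le_iff₀ hlogP]
  have hc0 : (0 : ℝ) ≤ ((dyP P).card : ℝ) := Nat.cast_nonneg _
  nlinarith

end MRA
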