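import Pool.Agent.Helper11.MRA.Defs

/-!
# MRA-10 Shift: approximate shift invariance of the logarithmic weights

For `|G| ≤ B`:
`∑_{n ≤ X} G(n+i)/n = ∑_{i < m ≤ X+i} G(m)/(m-i)`.  One step (`i = 1`) by induction:
`|∑_{n≤X} G(n+1)/n - ∑_{n≤X} G(n)/n| ≤ B (1 + ∑_{n=2}^{X} (1/(n-1) - 1/n) + 1/X) ≤ 2 B`
(compare `G(n+1)/n` with `G(n+1)/(n+1)`, total `∑ (1/n - 1/(n+1)) ≤ 1`, and then the sums
`∑_{n≤X} G(n+1)/(n+1)` and `∑_{n≤X} G(n)/n` differ by `G(X+1)/(X+1) - G(1)`; this gives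
`1 - 1/(X+1) + 1/(X+1) + 1 = 2`).  Then iterate `i` times, applied to `G (· + i)`.
For `0 ≤ G ≤ 1` we only need the same bound with `B = 1`.
-/

set_option autoImplicit false

namespace MRA

open Finset MRP

private lemma shift_aux (G : ℕ → ℝ) (B : ℝ) (hG : ∀ n, |G n| ≤ B) (X : ℕ) :
    |(∑ n ∈ Icc 1 X, (1 / (n : ℝ)) * G (n + 1)) - (∑ n ∈ Icc 1 X, (1 / (n : ℝ)) * G n) -
      G (X + 1) / (X + 1) + G 1| ≤ B * (1 - 1 / ((X : ℝ) + 1)) := by
  induction X with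
  | zero => simp
  | succ X ih =>
    rw [Finset.sum_Icc_succ_top (by omega), Finset.sum_Icc_succ_top (by omega)]
    have hX : (0 : ℝ) < (X : ℝ) + 1 := by positivity
    have hX2 : (0 : ℝ) < (X : ℝ) + 1 + 1 := by positivity
    have hd : (0 : ℝ) ≤ 1 / ((X : ℝ) + 1) - 1 / ((X : ℝ) + 1 + 1) := by
      rw [sub_nonneg]
      exact one_div_le_one_div_of_le hX (by linarith)
    have e : (∑ n ∈ Icc 1 X, (1 / (n : ℝ)) * G (n + 1)) +
        (1 / ((X + 1 : ℕ) : ℝ)) * G (X + 1 + 1) -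
        ((∑ n ∈ Icc 1 X, (1 / (n : ℝ)) * G n) + (1 / ((X + 1 : ℕ) : ℝ)) * G (X + 1)) -
        G (X + 1 + 1) / (((X + 1 : ℕ) : ℝ) + 1) + G 1 =
        ((∑ n ∈ Icc 1 X, (1 / (n : ℝ)) * G (n + 1)) - (∑ n ∈ Icc 1 X, (1 / (n : ℝ)) * G n) -
          G (X + 1) / (X + 1) + G 1) +
          (1 / ((X : ℝ) + 1) - 1 / ((X : ℝ) + 1 + 1)) * G (X + 1 + 1) := by
      push_cast
      ring
    rw [e]
    refine (abs_add_le _ _).trans ?_
    rw [abs_mul, abs_of_nonneg hd]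
    have h2 := mul_le_mul_of_nonneg_left (hG (X + 1 + 1)) hd
    have h3 : B * (1 - 1 / (((X + 1 : ℕ) : ℝ) + 1)) = B * (1 - 1 / ((X : ℝ) + 1)) +
        (1 / ((X : ℝ) + 1) - 1 / ((X : ℝ) + 1 + 1)) * B := by
      push_cast
      ring
    rw [h3]
    exact add_le_add ih h2

private lemma shift_one (G : ℕ → ℝ) (B : ℝ) (hG : ∀ n, |G n| ≤ B) (X : ℕ) :
    |(∑ n ∈ Icc 1 X, (1 / (n : ℝ)) * G (n + 1)) - ∑ n ∈ Icc 1 X, (1 / (n : ℝ)) * G n| ≤
      2 * B := by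
  have h := shift_aux G B hG X
  have hX : (0 : ℝ) < (X : ℝ) + 1 := by positivity
  have h1 : |G (X + 1) / ((X : ℝ) + 1)| ≤ B * (1 / ((X : ℝ) + 1)) := by
    rw [abs_div, abs_of_pos hX, mul_one_div]
    exact div_le_div_of_nonneg_right (hG _) hX.le
  have h2 := hG 1
  rw [abs_le] at h h1 h2 ⊢
  have h3 : B * (1 - 1 / ((X : ℝ) + 1)) = B - B * (1 / ((X : ℝ) + 1)) := by ring
  rw [h3] at h
  constructor <;> linarith [h.1, h.2, h1.1, h1.2, h2.1, h2.2]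

theorem shift_abs (G : ℕ → ℝ) (B : ℝ) (hG : ∀ n, |G n| ≤ B) (i X : ℕ) :
    |(∑ n ∈ Icc 1 X, (1 / (n : ℝ)) * G (n + i)) - ∑ n ∈ Icc 1 X, (1 / (n : ℝ)) * G n| ≤
      2 * B * i := by
  induction i with
  | zero => simp
  | succ i ih =>
    have h := shift_one (fun n => G (n + i)) B (fun n => hG _) X
    have e : ∀ n, G (n + 1 + i) = G (n + (i + 1)) := fun n => by
      congr 1
      omega
    simp only [e] at h
    have h2 : (∑ n ∈ Icc 1 X, (1 / (n : ℝ)) * G (n + (i + 1))) -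
        ∑ n ∈ Icc 1 X, (1 / (n : ℝ)) * G n =
        ((∑ n ∈ Icc 1 X, (1 / (n : ℝ)) * G (n + (i + 1))) -
          ∑ n ∈ Icc 1 X, (1 / (n : ℝ)) * G (n + i)) +
        ((∑ n ∈ Icc 1 X, (1 / (n : ℝ)) * G (n + i)) - ∑ n ∈ Icc 1 X, (1 / (n : ℝ)) * G n) := by
      ring
    rw [h2]
    refine (abs_add_le _ _).trans ?_
    push_cast
    linarith

theorem law_shift {α : Type} [DecidableEq α] (f : ℕ → α) (a : α) (i X : ℕ) :
    |law X (fun n => f (n + i)) a - law X f a| ≤ 2 * i / LS X := by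
  have hL : 0 ≤ LS X := by
    unfold LS
    exact Finset.sum_nonneg fun n _ => by positivity
  have h := shift_abs (fun n => if f n = a then (1 : ℝ) else 0) 1
    (fun n => by split_ifs <;> simp) i X
  unfold law
  rw [← sub_div, abs_div, abs_of_nonneg hL]
  refine div_le_div_of_nonneg_right ?_ hL
  simp only [mul_ite, mul_one, mul_zero] at h
  rw [Finset.sum_filter, Finset.sum_filter]
  exact h

end MRA
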