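import Pool.Agent.Helper11.MRA.Defs

/-!
# MRA-07 Crt: independence of the residues modulo distinct primes

`∑_{r < ∏_{p ∈ D} p} ∏_{p ∈ D} u p (r % p) = ∏_{p ∈ D} ∑_{s < p} u p s` for a finite set `D` of
primes.  Induction on `D` (`Finset.induction_on`); the step is
`∑_{r < M p} A (r % M) B (r % p) = (∑_{s < M} A s) (∑_{s < p} B s)` for coprime `M, p`
(the map `r ↦ (r % M, r % p)` is a bijection from `range (M p)` onto `range M ×ˢ range p`, by the
Chinese remainder theorem, e.g. `Nat.chineseRemainder` or injectivity plus cardinality), used with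
`A r = ∏_{q ∈ D} u q (r % q)`, which depends on `r % M` only (`Nat.mod_mod_of_dvd`).
-/

set_option autoImplicit false

namespace MRA

open Finset MRP

theorem crt_two (M p : ℕ) (hM : 0 < M) (hp : 0 < p) (hc : Nat.Coprime M p)
    (A B : ℕ → ℝ) :
    ∑ r ∈ range (p * M), A (r % M) * B (r % p)
      = (∑ s ∈ range M, A s) * ∑ s ∈ range p, B s := by
  rw [Finset.sum_mul_sum, ← Finset.sum_product']
  refine Finset.sum_bij' (i := fun r _ => (r % M, r % p))
    (j := fun x _ => (Nat.chineseRemainder hc x.1 x.2 : ℕ)) ?_ ?_ ?_ ?_ ?_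
  · intro r _
    simp only [Finset.mem_product, Finset.mem_range]
    exact ⟨Nat.mod_lt _ hM, Nat.mod_lt _ hp⟩
  · intro x _
    rw [Finset.mem_range, mul_comm]
    exact Nat.chineseRemainder_lt_mul hc x.1 x.2 hM.ne' hp.ne'
  · intro r hr
    rw [Finset.mem_range, mul_comm] at hr
    have h := Nat.chineseRemainder_modEq_unique hc (a := r % M) (b := r % p) (z := r)
      (Nat.mod_modEq r M).symm (Nat.mod_modEq r p).symm
    have h2 := Nat.chineseRemainder_lt_mul hc (r % M) (r % p) hM.ne' hp.ne'
    exact (Nat.ModEq.eq_of_lt_of_lt h hr h2).symm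
  · intro x hx
    simp only [Finset.mem_product, Finset.mem_range] at hx
    have h := (Nat.chineseRemainder hc x.1 x.2).2
    ext
    · have := h.1
      rw [Nat.ModEq, Nat.mod_eq_of_lt hx.1] at this
      exact this
    · have := h.2
      rw [Nat.ModEq, Nat.mod_eq_of_lt hx.2] at this
      exact this
  · intro r _
    rfl

theorem crt (D : Finset ℕ) (hD : ∀ p ∈ D, Nat.Prime p) (u : ℕ → ℕ → ℝ) :
    ∑ r ∈ range (∏ p ∈ D, p), ∏ p ∈ D, u p (r % p) = ∏ p ∈ D, ∑ s ∈ range p, u p s := by
  classical
  induction D using Finset.induction_on with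
  | empty => simp
  | insert p D hpD ih =>
    have hD' : ∀ q ∈ D, Nat.Prime q := fun q hq => hD q (Finset.mem_insert_of_mem hq)
    have hp : Nat.Prime p := hD p (Finset.mem_insert_self _ _)
    have hM : 0 < ∏ q ∈ D, q := Finset.prod_pos fun q hq => (hD' q hq).pos
    have hc : Nat.Coprime (∏ q ∈ D, q) p := by
      refine Nat.Coprime.prod_left fun q hq => ?_
      refine (Nat.coprime_primes (hD' q hq) hp).2 ?_
      rintro rfl
      exact hpD hq
    have key := crt_two (∏ q ∈ D, q) p hM hp.pos hc (fun r => ∏ q ∈ D, u q (r % q)) (u p)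
    rw [Finset.prod_insert hpD, Finset.prod_insert hpD, ← ih hD', mul_comm (∑ s ∈ range p, u p s),
      ← key]
    refine Finset.sum_congr rfl fun r _ => ?_
    rw [Finset.prod_insert hpD, mul_comm]
    congr 1
    refine Finset.prod_congr rfl fun q hq => ?_
    rw [Nat.mod_mod_of_dvd _ (Finset.dvd_prod_of_mem (fun q => q) hq)]

end MRA
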