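import Pool.Agent.Helper11.MRA.Gibbs

/-!
# MRA-06 DV: the Gibbs variational principle (Donsker-Varadhan) with a uniform reference

`E F(v,y) ≤ H(v) + log card β - H(v,y) + log Z` if `∑_b exp (F a b) ≤ Z * card β` for every `a`.
Proof: `gibbs` on `α × β` with `p (a,b) = law (v,y) (a,b)` and
`q (a,b) = law v a * exp (F a b) / (Z * card β)`; `∑ q ≤ ∑_a law v a = 1 = ∑ p`; `q (a,b) = 0`
implies `law v a = 0`, which dominates `p (a,b)`.  Then
`-∑ p log q = -∑ p (log law v a + F a b - log Z - log card β)
            = ent v - E F + log Z + log card β`.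
-/

set_option autoImplicit false

namespace MRA

open Finset MRP

theorem dv {α β : Type} [Fintype α] [DecidableEq α] [Fintype β] [DecidableEq β] [Nonempty β]
    {X : ℕ} (hX : 1 ≤ X) (v : ℕ → α) (y : ℕ → β) (F : α → β → ℝ) (Z : ℝ) (hZ : 0 < Z)
    (hF : ∀ a, ∑ b : β, Real.exp (F a b) ≤ Z * (Fintype.card β : ℝ)) :
    EL X (fun n => F (v n) (y n)) ≤
      ent X v + Real.log (Fintype.card β) - ent X (fun n => (v n, y n)) + Real.log Z := by
  classical
  have hcard : (0 : ℝ) < (Fintype.card β : ℝ) := by exact_mod_cast Fintype.card_pos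
  have hZc : 0 < Z * (Fintype.card β : ℝ) := mul_pos hZ hcard
  set p : α × β → ℝ := fun i => law X (fun n => (v n, y n)) i with hp
  set q : α × β → ℝ := fun i => law X v i.1 * Real.exp (F i.1 i.2) / (Z * (Fintype.card β : ℝ))
    with hq
  have hp0 : ∀ i, 0 ≤ p i := fun i => law_nonneg X _ i
  have hv0 : ∀ a, 0 ≤ law X v a := fun a => law_nonneg X v a
  have hq0 : ∀ i, 0 ≤ q i := fun i =>
    div_nonneg (mul_nonneg (hv0 _) (Real.exp_pos _).le) hZc.le
  have hpv : ∀ i : α × β, p i ≤ law X v i.1 := by
    intro i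
    have h1 : ∑ b : β, law X (fun n => (v n, y n)) (i.1, b) = law X v i.1 := law_fst X v y i.1
    rw [← h1]
    exact Finset.single_le_sum (f := fun b => law X (fun n => (v n, y n)) (i.1, b))
      (fun b _ => law_nonneg X _ _) (Finset.mem_univ i.2)
  have hpq : ∀ i, q i = 0 → p i = 0 := by
    intro i hi
    rcases div_eq_zero_iff.1 hi with h | h
    · rcases mul_eq_zero.1 h with h | h
      · exact le_antisymm (h ▸ hpv i) (hp0 i)
      · exact absurd h (Real.exp_pos _).ne'
    · exact absurd h hZc.ne'
  have hsum : ∑ i, q i ≤ ∑ i, p i := by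
    have h1 : ∑ i, p i = 1 := law_sum hX _
    rw [h1, Fintype.sum_prod_type]
    have h2 : ∀ a : α, ∑ b : β, q (a, b) ≤ law X v a := by
      intro a
      have h3 : ∑ b : β, q (a, b) =
          law X v a * (∑ b : β, Real.exp (F a b)) / (Z * (Fintype.card β : ℝ)) := by
        rw [Finset.mul_sum, Finset.sum_div]
      rw [h3, div_le_iff₀ hZc]
      exact mul_le_mul_of_nonneg_left (hF a) (hv0 a)
    calc ∑ a : α, ∑ b : β, q (a, b) ≤ ∑ a : α, law X v a := Finset.sum_le_sum fun a _ => h2 a
      _ = 1 := law_sum hX v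
  have hG := gibbs p q hp0 hq0 hpq hsum
  have hterm : ∀ i : α × β, p i * Real.log (q i) =
      p i * (Real.log (law X v i.1) + F i.1 i.2 - (Real.log Z + Real.log (Fintype.card β))) := by
    intro i
    by_cases h0 : p i = 0
    · rw [h0]; ring
    · have h1 : 0 < p i := lt_of_le_of_ne (hp0 i) (Ne.symm h0)
      have h2 : 0 < law X v i.1 := lt_of_lt_of_le h1 (hpv i)
      have h3 : Real.log (q i) =
          Real.log (law X v i.1) + F i.1 i.2 - (Real.log Z + Real.log (Fintype.card β)) := by
        simp only [hq]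
        rw [Real.log_div (mul_pos h2 (Real.exp_pos _)).ne' hZc.ne',
          Real.log_mul h2.ne' (Real.exp_pos _).ne', Real.log_exp, Real.log_mul hZ.ne' hcard.ne']
      rw [h3]
  have e1 : EL X (fun n => F (v n) (y n)) = ∑ i : α × β, p i * F i.1 i.2 :=
    EL_eq X (fun n => (v n, y n)) (fun i : α × β => F i.1 i.2)
  have e2 : ∑ i : α × β, p i * Real.log (law X v i.1) = - ent X v := by
    have h1 : EL X (fun n => Real.log (law X v (v n))) =
        ∑ i : α × β, p i * Real.log (law X v i.1) :=
      EL_eq X (fun n => (v n, y n)) (fun i : α × β => Real.log (law X v i.1))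
    have h2 : EL X (fun n => Real.log (law X v (v n))) =
        ∑ a : α, law X v a * Real.log (law X v a) :=
      EL_eq X v (fun a => Real.log (law X v a))
    rw [← h1, h2]
    unfold ent
    rw [← Finset.sum_neg_distrib]
    refine Finset.sum_congr rfl fun a _ => ?_
    rw [Real.negMulLog]
    ring
  have e3 : ∑ i : α × β, p i * (Real.log Z + Real.log (Fintype.card β)) =
      Real.log Z + Real.log (Fintype.card β) := by
    rw [← Finset.sum_mul]
    have h1 : ∑ i, p i = 1 := law_sum hX _
    rw [h1, one_mul]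
  have e4 : ∑ i, p i * Real.log (q i) =
      - ent X v + EL X (fun n => F (v n) (y n)) - (Real.log Z + Real.log (Fintype.card β)) := by
    rw [Finset.sum_congr rfl fun i _ => hterm i]
    simp only [mul_sub, mul_add]
    rw [Finset.sum_sub_distrib, Finset.sum_add_distrib, e2, ← e1]
    have e5 : ∑ i : α × β, (p i * Real.log Z + p i * Real.log (Fintype.card β)) =
        Real.log Z + Real.log (Fintype.card β) := by
      rw [← e3]
      exact Finset.sum_congr rfl fun i _ => by ring
    rw [e5]
  rw [e4] at hG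
  have e6 : ent X (fun n => (v n, y n)) = ∑ i, Real.negMulLog (p i) := rfl
  rw [← e6] at hG
  linarith

end MRA
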