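import Pool.Agent.Helper11.MRA.Defs

/-!
# MRA-08 FpB: the one-prime contribution has mean zero, is bounded by 2, and its exponential moment

`fp P p v r = (1/P) ∑_{j<P} (p 1_{p ∣ r+j} - 1) g1 v j g2 v (j+p)`, `P < p ≤ 2P`,
`g1, g2 ∈ {0, 1}`.

* `fp_mod`: depends on `r % p` only.
* `fp_sum`: `∑_{r<p} p 1_{p ∣ r + j} = p` for every `j` (exactly one `r` in `range p`), so
  `∑_{r<p} fp = 0`.
* `fp_abs`: for fixed `r` at most one `j < P < p` has `p ∣ r + j`, hence
  `-1 ≤ fp ≤ p / P ≤ 2`.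
* `fp_exp`: if `|x| ≤ 2` then by convexity of `exp` on `[-2s, 2s]`
  `exp (s x) ≤ cosh (2 s) + (x/2) sinh (2 s)`; sum over `r < p` with `∑ fp = 0` and
  `Real.cosh_le_exp_half_sq : cosh x ≤ exp (x^2/2)`.
-/

set_option autoImplicit false

namespace MRA

open Finset MRP

theorem fp_mod (P p : ℕ) {L : ℕ} (v : Fin L → Bool × Bool) (r : ℕ) :
    fp P p v r = fp P p v (r % p) := by
  unfold fp
  congr 1
  apply Finset.sum_congr rfl
  intro j _
  have h : (p ∣ r + j) ↔ (p ∣ r % p + j) := by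
    have h1 : r % p + j ≡ r + j [MOD p] := (Nat.mod_modEq r p).add_right j
    exact (h1.dvd_iff (dvd_refl p)).symm
  simp only [h]

private theorem h45_mem {P p : ℕ} (hp : p ∈ dyP P) : P < p ∧ p ≤ 2 * P ∧ 0 < P ∧ 0 < p := by
  unfold dyP at hp
  have h := Finset.mem_filter.1 hp
  have h2 := Finset.mem_Ioc.1 h.1
  omega

private theorem h45_card (p j : ℕ) (hp : 0 < p) :
    ((range p).filter (fun r => p ∣ r + j)).card = 1 := by
  have hr : ∃ r0 < p, p ∣ r0 + j := by
    rcases Nat.eq_zero_or_pos (j % p) with h | h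
    · exact ⟨0, hp, by simpa using Nat.dvd_of_mod_eq_zero h⟩
    · have h1 := Nat.mod_lt j hp
      refine ⟨p - j % p, by omega, ?_⟩
      have h2 := Nat.div_add_mod j p
      refine ⟨1 + j / p, ?_⟩
      rw [Nat.mul_add, Nat.mul_one]
      omega
  obtain ⟨r0, hr0, hd⟩ := hr
  rw [Finset.card_eq_one]
  refine ⟨r0, ?_⟩
  ext r
  rw [Finset.mem_filter, Finset.mem_range, Finset.mem_singleton]
  constructor
  · rintro ⟨h1, h2⟩
    have h3 : r + j ≡ r0 + j [MOD p] :=
      ((Nat.modEq_zero_iff_dvd).2 h2).trans ((Nat.modEq_zero_iff_dvd).2 hd).symm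
    exact (Nat.ModEq.add_right_cancel' j h3).eq_of_lt_of_lt h1 hr0
  · rintro rfl
    exact ⟨hr0, hd⟩

theorem fp_sum {P p : ℕ} (hp : p ∈ dyP P) {L : ℕ} (v : Fin L → Bool × Bool) :
    ∑ r ∈ range p, fp P p v r = 0 := by
  obtain ⟨-, -, -, hp0⟩ := h45_mem hp
  unfold fp
  rw [← Finset.mul_sum, Finset.sum_comm]
  have h : ∀ j ∈ range P, ∑ r ∈ range p,
      (((if p ∣ r + j then (p : ℝ) else 0) - 1) * (g1 v j * g2 v (j + p))) = 0 := by
    intro j _
    rw [← Finset.sum_mul, Finset.sum_sub_distrib, Finset.sum_const, Finset.card_range,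
      ← Finset.sum_filter, Finset.sum_const, h45_card p j hp0]
    simp
  rw [Finset.sum_eq_zero h, mul_zero]

private theorem h45_bo (b : Bool) : 0 ≤ bo b ∧ bo b ≤ 1 := by
  unfold bo
  split_ifs <;> norm_num

private theorem h45_g1 {L : ℕ} (v : Fin L → Bool × Bool) (j : ℕ) : 0 ≤ g1 v j ∧ g1 v j ≤ 1 := by
  unfold g1
  split_ifs
  · exact h45_bo _
  · norm_num

private theorem h45_g2 {L : ℕ} (v : Fin L → Bool × Bool) (j : ℕ) : 0 ≤ g2 v j ∧ g2 v j ≤ 1 := by
  unfold g2
  split_ifs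
  · exact h45_bo _
  · norm_num

private theorem h45_card_le (P p r : ℕ) (hP : P < p) :
    ((range P).filter (fun j => p ∣ r + j)).card ≤ 1 := by
  rw [Finset.card_le_one]
  intro a ha b hb
  rw [Finset.mem_filter, Finset.mem_range] at ha hb
  have h3 : r + a ≡ r + b [MOD p] :=
    ((Nat.modEq_zero_iff_dvd).2 ha.2).trans ((Nat.modEq_zero_iff_dvd).2 hb.2).symm
  exact (Nat.ModEq.add_left_cancel' r h3).eq_of_lt_of_lt (by omega) (by omega)

theorem fp_abs {P p : ℕ} (hp : p ∈ dyP P) {L : ℕ} (v : Fin L → Bool × Bool) (r : ℕ) :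
    |fp P p v r| ≤ 2 := by
  obtain ⟨h1, h2, h3, h4⟩ := h45_mem hp
  set w : ℕ → ℝ := fun j => g1 v j * g2 v (j + p) with hw
  have hw0 : ∀ j, 0 ≤ w j := fun j => mul_nonneg (h45_g1 v j).1 (h45_g2 v _).1
  have hw1 : ∀ j, w j ≤ 1 := fun j =>
    mul_le_one₀ (h45_g1 v j).2 (h45_g2 v _).1 (h45_g2 v _).2
  have hP : (0 : ℝ) < P := by exact_mod_cast h3
  have hpP : (p : ℝ) ≤ 2 * P := by exact_mod_cast h2
  have e : fp P p v r = (1 / (P : ℝ)) *
      ((∑ j ∈ range P, (if p ∣ r + j then (p : ℝ) else 0) * w j) - ∑ j ∈ range P, w j) := by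
    unfold fp
    rw [← Finset.sum_sub_distrib]
    congr 1
    apply Finset.sum_congr rfl
    intro j _
    rw [hw]
    ring
  have a1 : 0 ≤ ∑ j ∈ range P, (if p ∣ r + j then (p : ℝ) else 0) * w j := by
    apply Finset.sum_nonneg
    intro j _
    apply mul_nonneg _ (hw0 j)
    split_ifs
    · positivity
    · exact le_rfl
  have a2 : ∑ j ∈ range P, (if p ∣ r + j then (p : ℝ) else 0) * w j ≤ p := by
    calc ∑ j ∈ range P, (if p ∣ r + j then (p : ℝ) else 0) * w j
        ≤ ∑ j ∈ range P, (if p ∣ r + j then (p : ℝ) else 0) := by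
          apply Finset.sum_le_sum
          intro j _
          split_ifs
          · exact mul_le_of_le_one_right (by positivity) (hw1 j)
          · rw [zero_mul]
      _ = (((range P).filter (fun j => p ∣ r + j)).card : ℝ) * p := by
          rw [← Finset.sum_filter, Finset.sum_const, nsmul_eq_mul]
      _ ≤ 1 * p := by
          apply mul_le_mul_of_nonneg_right _ (by positivity)
          exact_mod_cast h45_card_le P p r h1
      _ = p := one_mul _
  have b1 : 0 ≤ ∑ j ∈ range P, w j := Finset.sum_nonneg fun j _ => hw0 j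
  have b2 : ∑ j ∈ range P, w j ≤ P := by
    calc ∑ j ∈ range P, w j ≤ ∑ _j ∈ range P, (1 : ℝ) := Finset.sum_le_sum fun j _ => hw1 j
      _ = P := by simp
  rw [e, one_div_mul_eq_div, abs_le]
  constructor
  · rw [le_div_iff₀ hP]
    linarith
  · rw [div_le_iff₀ hP]
    linarith

theorem fp_exp {P p : ℕ} (hp : p ∈ dyP P) {L : ℕ} (v : Fin L → Bool × Bool) (s : ℝ) :
    ∑ r ∈ range p, Real.exp (s * fp P p v r) ≤ (p : ℝ) * Real.exp (2 * s ^ 2) := by
  have key : ∀ x : ℝ, |x| ≤ 2 → Real.exp (s * x) ≤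
      Real.cosh (2 * s) + x * (Real.sinh (2 * s) / 2) := by
    intro x hx
    rw [abs_le] at hx
    have h := convexOn_exp.2 (Set.mem_univ (2 * s)) (Set.mem_univ (-(2 * s)))
      (show (0 : ℝ) ≤ (x + 2) / 4 by linarith) (show (0 : ℝ) ≤ (2 - x) / 4 by linarith) (by ring)
    have e1 : ((x + 2) / 4) • (2 * s) + ((2 - x) / 4) • (-(2 * s)) = s * x := by
      simp only [smul_eq_mul]
      ring
    rw [e1] at h
    refine h.trans (le_of_eq ?_)
    rw [Real.cosh_eq, Real.sinh_eq, smul_eq_mul, smul_eq_mul]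
    ring
  calc ∑ r ∈ range p, Real.exp (s * fp P p v r)
      ≤ ∑ r ∈ range p, (Real.cosh (2 * s) + fp P p v r * (Real.sinh (2 * s) / 2)) :=
        Finset.sum_le_sum fun r _ => key _ (fp_abs hp v r)
    _ = (p : ℝ) * Real.cosh (2 * s) := by
        rw [Finset.sum_add_distrib, ← Finset.sum_mul, fp_sum hp, Finset.sum_const,
          Finset.card_range, nsmul_eq_mul, zero_mul, add_zero]
    _ ≤ (p : ℝ) * Real.exp (2 * s ^ 2) := by
        apply mul_le_mul_of_nonneg_left _ (by positivity)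
        refine (Real.cosh_le_exp_half_sq _).trans (le_of_eq ?_)
        congr 1
        ring

end MRA
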