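import Pool.Agent.Helper11.MRA.Crt
import Pool.Agent.Helper11.MRA.FpB

/-!
# MRA-09 Hoeff: exponential moment of `FF` for a uniform residue

`exp (t FF P v r) = ∏_{p ∈ D} exp ((t/|D|) fp P p v (r % p))` with `D = dyP P` (`fp_mod`), so by
`crt` the sum over `r < MP P = ∏ p` is `∏_{p ∈ D} ∑_{s<p} exp ((t/|D|) fp P p v s)`, and by
`fp_exp` this is `≤ ∏_{p ∈ D} p exp (2 t^2/|D|^2) = MP P * exp (2 t^2/|D|)`.
(If `D = ∅` then `FF = 0`, `MP P = 1`, `1/0 = 0`; both sides are `1`.)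
-/

set_option autoImplicit false

namespace MRA

open Finset MRP

theorem hoeff (P : ℕ) {L : ℕ} (v : Fin L → Bool × Bool) (t : ℝ) :
    ∑ r ∈ range (MP P), Real.exp (t * FF P v r) ≤
      (MP P : ℝ) * Real.exp (2 * t ^ 2 / ((dyP P).card : ℝ)) := by
  set d : ℝ := ((dyP P).card : ℝ) with hd
  have hexp : ∀ r : ℕ, Real.exp (t * FF P v r) =
      ∏ p ∈ dyP P, Real.exp ((t / d) * fp P p v (r % p)) := by
    intro r
    rw [← Real.exp_sum]
    congr 1
    unfold FF
    rw [← Finset.mul_sum]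
    have h1 : ∑ p ∈ dyP P, fp P p v (r % p) = ∑ p ∈ dyP P, fp P p v r :=
      Finset.sum_congr rfl fun p _ => (fp_mod P p v r).symm
    rw [h1]
    ring
  have hprime : ∀ p ∈ dyP P, Nat.Prime p := by
    intro p hp
    unfold dyP at hp
    exact (Finset.mem_filter.1 hp).2
  have h2 : ∑ r ∈ range (MP P), Real.exp (t * FF P v r) =
      ∏ p ∈ dyP P, ∑ s ∈ range p, Real.exp ((t / d) * fp P p v s) := by
    rw [Finset.sum_congr rfl fun r _ => hexp r]
    exact crt (dyP P) hprime (fun p s => Real.exp ((t / d) * fp P p v s))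
  rw [h2]
  have h3 : ∏ p ∈ dyP P, ∑ s ∈ range p, Real.exp ((t / d) * fp P p v s) ≤
      ∏ p ∈ dyP P, ((p : ℝ) * Real.exp (2 * (t / d) ^ 2)) := by
    refine Finset.prod_le_prod ?_ ?_
    · intro p _
      exact Finset.sum_nonneg fun s _ => (Real.exp_pos _).le
    · intro p hp
      exact fp_exp hp v (t / d)
  refine h3.trans (le_of_eq ?_)
  rw [Finset.prod_mul_distrib, Finset.prod_const, ← Real.exp_nat_mul]
  have h4 : (MP P : ℝ) = ∏ p ∈ dyP P, (p : ℝ) := by
    unfold MP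
    push_cast
    rfl
  rw [h4]
  congr 2
  rw [← hd]
  by_cases h0 : d = 0
  · rw [h0]; simp
  · field_simp

/-- The same with a sum over `Fin (MP P)`. -/
theorem hoeff_fin (P : ℕ) {L : ℕ} (v : Fin L → Bool × Bool) (t : ℝ) :
    ∑ r : Fin (MP P), Real.exp (t * FF P v (r : ℕ)) ≤
      Real.exp (2 * t ^ 2 / ((dyP P).card : ℝ)) * (Fintype.card (Fin (MP P)) : ℝ) := by
  rw [Fintype.card_fin, mul_comm]
  rw [Fin.sum_univ_eq_sum_range (fun r => Real.exp (t * FF P v r)) (MP P)]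
  exact hoeff P v t

end MRA
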