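import Pool.Agent.Helper11.MRA.Shift

/-!
# MRA-13 MeanQ: the quantity `QQ` as a mean of `FF` of (word, residue)

`∑_{n ≤ X} (1/n) FF P (word c (3P) n) (n % MP P)
   = (1/|D|) ∑_{p ∈ D} (1/P) ∑_{j<P} ∑_{n ≤ X} (1/n) G_p(n + j)`,
`G_p(m) = (p 1_{p ∣ m} - 1) bo (c m).1 bo (c (m+p)).2`, because `j < P`, `j + p < 3P`, and
`p ∣ n % MP P + j ↔ p ∣ n + j` (`p ∣ MP P`).  `|G_p| ≤ 2P` (`1 ≤ p ≤ 2P`).  By `shift_abs` the
inner sum differs from `∑ (1/n) G_p(n)` by at most `2 * (2P) * j ≤ 4 P^2`.  If `D = ∅` both sides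
are `0`.
-/

set_option autoImplicit false

namespace MRA

open Finset MRP

/-- The function `G_p`. -/
noncomputable def mqG (c : ℕ → Bool × Bool) (p m : ℕ) : ℝ :=
  ((if p ∣ m then (p : ℝ) else 0) - 1) * (bo (c m).1 * bo (c (m + p)).2)

theorem mq_bo (b : Bool) : |bo b| ≤ 1 := by
  unfold bo
  split_ifs <;> simp

theorem mqG_abs {P p : ℕ} (hP : 1 ≤ P) (hp : p ∈ dyP P) (c : ℕ → Bool × Bool) (m : ℕ) :
    |mqG c p m| ≤ 2 * (P : ℝ) := by
  unfold dyP at hp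
  have hp1 := Finset.mem_Ioc.1 (Finset.mem_filter.1 hp).1
  have hP' : (1 : ℝ) ≤ P := by exact_mod_cast hP
  have hp2 : (p : ℝ) ≤ 2 * P := by exact_mod_cast hp1.2
  have hp3 : (0 : ℝ) ≤ p := Nat.cast_nonneg p
  unfold mqG
  rw [abs_mul, abs_mul]
  have h1 : |(if p ∣ m then (p : ℝ) else 0) - 1| ≤ 2 * P := by
    rw [abs_le]
    split_ifs
    · constructor <;> linarith
    · constructor <;> linarith
  have h2 : |bo (c m).1| * |bo (c (m + p)).2| ≤ 1 := by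
    have := mul_le_mul (mq_bo (c m).1) (mq_bo (c (m + p)).2) (abs_nonneg _) zero_le_one
    linarith
  calc |(if p ∣ m then (p : ℝ) else 0) - 1| * (|bo (c m).1| * |bo (c (m + p)).2|)
      ≤ (2 * P) * 1 := mul_le_mul h1 h2 (mul_nonneg (abs_nonneg _) (abs_nonneg _)) (by linarith)
    _ = 2 * P := mul_one _

theorem mq_fp {P p : ℕ} (hp : p ∈ dyP P) (c : ℕ → Bool × Bool) (n : ℕ) :
    fp P p (word c (3 * P) n) (n % MP P) = (1 / (P : ℝ)) * ∑ j ∈ range P, mqG c p (n + j) := by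
  unfold fp
  congr 1
  refine Finset.sum_congr rfl fun j hj => ?_
  have hp' := hp
  unfold dyP at hp'
  have hp1 := Finset.mem_Ioc.1 (Finset.mem_filter.1 hp').1
  rw [Finset.mem_range] at hj
  have hdvd : p ∣ MP P := by
    unfold MP
    exact Finset.dvd_prod_of_mem (fun p => p) hp
  have h1 : (p ∣ n % MP P + j) ↔ (p ∣ n + j) := by
    have h2 : n % MP P + j ≡ n + j [MOD p] :=
      Nat.ModEq.add_right j ((Nat.mod_modEq n (MP P)).of_dvd hdvd)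
    exact h2.dvd_iff dvd_rfl
  have h3 : g1 (word c (3 * P) n) j = bo (c (n + j)).1 := by
    unfold g1
    rw [dif_pos (by omega)]
    rfl
  have h4 : g2 (word c (3 * P) n) (j + p) = bo (c (n + j + p)).2 := by
    unfold g2
    rw [dif_pos (by omega)]
    show bo (c (n + (j + p))).2 = _
    rw [add_assoc]
  rw [h3, h4]
  unfold mqG
  simp only [h1]

theorem meanQ (P X : ℕ) (hP : 1 ≤ P) (c : ℕ → Bool × Bool) :
    |QQ X P c - ∑ n ∈ Icc 1 X, (1 / (n : ℝ)) * FF P (word c (3 * P) n) (n % MP P)| ≤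
      4 * (P : ℝ) ^ 2 := by
  have hP0 : (0 : ℝ) < P := by exact_mod_cast hP
  set d : ℝ := ((dyP P).card : ℝ) with hd
  have hd0 : 0 ≤ d := Nat.cast_nonneg _
  have hQ : QQ X P c = (1 / d) * ∑ p ∈ dyP P, (1 / (P : ℝ)) * ∑ j ∈ range P,
      ∑ n ∈ Icc 1 X, (1 / (n : ℝ)) * mqG c p n := by
    unfold QQ
    congr 1
    refine Finset.sum_congr rfl fun p _ => ?_
    rw [Finset.sum_const, Finset.card_range, nsmul_eq_mul, ← mul_assoc, one_div_mul_cancel hP0.ne',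
      one_mul]
    rfl
  have hM : ∑ n ∈ Icc 1 X, (1 / (n : ℝ)) * FF P (word c (3 * P) n) (n % MP P) =
      (1 / d) * ∑ p ∈ dyP P, (1 / (P : ℝ)) * ∑ j ∈ range P,
      ∑ n ∈ Icc 1 X, (1 / (n : ℝ)) * mqG c p (n + j) := by
    have h1 : ∀ n ∈ Icc 1 X, (1 / (n : ℝ)) * FF P (word c (3 * P) n) (n % MP P) =
        (1 / d) * ∑ p ∈ dyP P, (1 / (P : ℝ)) * ∑ j ∈ range P, (1 / (n : ℝ)) * mqG c p (n + j) := by
      intro n _
      unfold FF
      rw [Finset.sum_congr rfl fun p hp => mq_fp hp c n]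
      rw [← hd, ← mul_assoc, mul_comm (1 / (n : ℝ)) (1 / d), mul_assoc, Finset.mul_sum]
      congr 1
      refine Finset.sum_congr rfl fun p _ => ?_
      rw [← mul_assoc, mul_comm (1 / (n : ℝ)) (1 / (P : ℝ)), mul_assoc, Finset.mul_sum]
    rw [Finset.sum_congr rfl h1, ← Finset.mul_sum, Finset.sum_comm]
    congr 1
    refine Finset.sum_congr rfl fun p _ => ?_
    rw [← Finset.mul_sum, Finset.sum_comm]
  rw [hQ, hM, ← mul_sub, ← Finset.sum_sub_distrib]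
  have hterm : ∀ p ∈ dyP P, |(1 / (P : ℝ)) * ∑ j ∈ range P,
      ∑ n ∈ Icc 1 X, (1 / (n : ℝ)) * mqG c p n - (1 / (P : ℝ)) * ∑ j ∈ range P,
      ∑ n ∈ Icc 1 X, (1 / (n : ℝ)) * mqG c p (n + j)| ≤ 4 * (P : ℝ) ^ 2 := by
    intro p hp
    rw [← mul_sub, ← Finset.sum_sub_distrib, abs_mul]
    have h2 : |∑ j ∈ range P, ((∑ n ∈ Icc 1 X, (1 / (n : ℝ)) * mqG c p n) -
        ∑ n ∈ Icc 1 X, (1 / (n : ℝ)) * mqG c p (n + j))| ≤ ∑ j ∈ range P, 4 * (P : ℝ) ^ 2 := by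
      refine (Finset.abs_sum_le_sum_abs _ _).trans (Finset.sum_le_sum fun j hj => ?_)
      rw [Finset.mem_range] at hj
      have h3 := shift_abs (mqG c p) (2 * P) (mqG_abs hP hp c) j X
      rw [abs_sub_comm] at h3
      refine h3.trans ?_
      have hj' : (j : ℝ) ≤ P := by exact_mod_cast hj.le
      nlinarith
    rw [Finset.sum_const, Finset.card_range, nsmul_eq_mul] at h2
    have h4 : |1 / (P : ℝ)| = 1 / (P : ℝ) := abs_of_pos (by positivity)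
    rw [h4]
    calc (1 / (P : ℝ)) * _ ≤ (1 / (P : ℝ)) * ((P : ℝ) * (4 * (P : ℝ) ^ 2)) :=
          mul_le_mul_of_nonneg_left h2 (by positivity)
      _ = 4 * (P : ℝ) ^ 2 := by field_simp
  rw [abs_mul]
  have h5 : |∑ p ∈ dyP P, ((1 / (P : ℝ)) * ∑ j ∈ range P,
      ∑ n ∈ Icc 1 X, (1 / (n : ℝ)) * mqG c p n - (1 / (P : ℝ)) * ∑ j ∈ range P,
      ∑ n ∈ Icc 1 X, (1 / (n : ℝ)) * mqG c p (n + j))| ≤ d * (4 * (P : ℝ) ^ 2) := by
    refine (Finset.abs_sum_le_sum_abs _ _).trans ((Finset.sum_le_sum hterm).trans (le_of_eq ?_))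
    rw [Finset.sum_const, nsmul_eq_mul]
  have h6 : |1 / d| = 1 / d := abs_of_nonneg (by positivity)
  rw [h6]
  refine (mul_le_mul_of_nonneg_left h5 (by positivity)).trans ?_
  by_cases h0 : d = 0
  · rw [h0]; simp
  · rw [← mul_assoc, one_div_mul_cancel h0, one_mul]

end MRA
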