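import Pool.Agent.Helper11.MRA.DV
import Pool.Agent.Helper11.MRA.Hoeff
import Pool.Agent.Helper11.MRA.MeanQ

/-!
# MRA-14 Defect: a large `QQ` at scale `P` forces a large entropy defect

`defect`: if `|QQ X P c| > ε log X` and `X ≥ X0(ε, P)`, then with `D = dyP P`, `V = word c (3P)`,
`Y = res (MP P)`, `M = MP P`: `(ε^2/16) |D| ≤ H(V) + log M - H(V,Y)`.

Proof.  If `D = ∅` then `QQ = 0`: contradiction for `X ≥ 1` (`log X ≥ 0`).  For `t : ℝ` apply `dv`
with `F a b = t * FF P a b`, `Z = exp (2 t^2/|D|)` (`hoeff_fin`):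
`t * EL FF ≤ H(V) + log M - H(V,Y) + 2 t^2/|D|`.  Take `t = ± (ε/8) |D|` with the sign of
`EL FF`: `(ε/8) |D| (|EL FF| - 2 (ε/8)) ≤ H(V) + log M - H(V,Y)`.
By `meanQ`, `|EL FF| ≥ (|QQ| - 4P^2)/LS X ≥ (ε log X - 4P^2)/(1 + log X) ≥ 3ε/4` for large `X`
(`LS_le`), so the left side is at least `(ε/8)|D| (3ε/4 - ε/4) = ε^2 |D|/16`.

`MP_log`: `log (MP P) ≤ 2 P log 4`: `MP P` divides (or is at most) `primorial (2P) ≤ 4^(2P)`
(`primorial_le_four_pow` / `primorial_le_4_pow`).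
-/

set_option autoImplicit false

namespace MRA

open Finset MRP

theorem EL_mul (X : ℕ) (t : ℝ) (G : ℕ → ℝ) : EL X (fun n => t * G n) = t * EL X G := by
  unfold EL
  rw [← mul_div_assoc, Finset.mul_sum]
  congr 1
  refine Finset.sum_congr rfl fun n _ => ?_
  ring

theorem defect (ε : ℝ) (hε : 0 < ε) (P : ℕ) (hP : 1 ≤ P) : ∃ X0 : ℕ, ∀ X : ℕ, X0 ≤ X →
    ∀ c : ℕ → Bool × Bool, ε * Real.log X < |QQ X P c| →
      ε ^ 2 / 16 * ((dyP P).card : ℝ) ≤ ent X (word c (3 * P)) + Real.log (MP P) -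
        ent X (fun n => (word c (3 * P) n, res (MP P) n)) := by
  refine ⟨max 1 ⌈Real.exp (16 * (P : ℝ) ^ 2 / ε + 3)⌉₊, ?_⟩
  intro X hX c hQ
  have hX1 : 1 ≤ X := le_trans (le_max_left _ _) hX
  have hX2 : Real.exp (16 * (P : ℝ) ^ 2 / ε + 3) ≤ X :=
    le_trans (Nat.le_ceil _) (by exact_mod_cast le_trans (le_max_right _ _) hX)
  have hXpos : (0 : ℝ) < X := by exact_mod_cast hX1
  have hlog : 16 * (P : ℝ) ^ 2 / ε + 3 ≤ Real.log X :=
    (Real.le_log_iff_exp_le hXpos).2 hX2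
  have hlog' : 16 * (P : ℝ) ^ 2 + 3 * ε ≤ ε * Real.log X := by
    have h := mul_le_mul_of_nonneg_left hlog hε.le
    have h2 : ε * (16 * (P : ℝ) ^ 2 / ε + 3) = 16 * (P : ℝ) ^ 2 + 3 * ε := by
      field_simp
    linarith
  have hlogn : 0 ≤ Real.log X := by
    have : (0 : ℝ) ≤ 16 * (P : ℝ) ^ 2 / ε := by positivity
    linarith
  set D : ℝ := ((dyP P).card : ℝ) with hD
  have hDpos : 0 < D := by
    by_contra hcon
    have hc0 : (dyP P).card = 0 := by
      have h0 : (0 : ℝ) ≤ D := by rw [hD]; positivity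
      have : D = 0 := le_antisymm (not_lt.1 hcon) h0
      rw [hD] at this
      exact_mod_cast this
    have hQ0 : QQ X P c = 0 := by
      unfold QQ
      rw [hc0]
      simp
    rw [hQ0, abs_zero] at hQ
    have : 0 ≤ ε * Real.log X := mul_nonneg hε.le hlogn
    linarith
  set G : ℕ → ℝ := fun n => FF P (word c (3 * P) n) ((res (MP P) n : Fin (MP P)) : ℕ) with hG
  set S : ℝ := ∑ n ∈ Icc 1 X, (1 / (n : ℝ)) * G n with hS
  have hm : |QQ X P c - S| ≤ 4 * (P : ℝ) ^ 2 := by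
    have := meanQ P X hP c
    simpa [hS, hG, res] using this
  have hLSpos := LS_pos hX1
  have hLSle := LS_le hX1
  have hEL : EL X G = S / LS X := rfl
  have hSabs : ε * Real.log X - 4 * (P : ℝ) ^ 2 ≤ |S| := by
    have h1 : |QQ X P c| ≤ |QQ X P c - S| + |S| := by
      have := abs_add_le (QQ X P c - S) S
      simpa using this
    linarith
  have hELabs : 3 * ε / 4 ≤ |EL X G| := by
    rw [hEL, abs_div, abs_of_pos hLSpos, le_div_iff₀ hLSpos]
    have h2 : 3 * ε / 4 * LS X ≤ 3 * ε / 4 * (1 + Real.log X) :=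
      mul_le_mul_of_nonneg_left hLSle (by positivity)
    nlinarith
  have key : ∀ t : ℝ, t ^ 2 = (ε / 8 * D) ^ 2 → t * EL X G = ε / 8 * D * |EL X G| →
      ε ^ 2 / 16 * D ≤ ent X (word c (3 * P)) + Real.log (MP P) -
        ent X (fun n => (word c (3 * P) n, res (MP P) n)) := by
    intro t ht2 htE
    have hdv := dv hX1 (word c (3 * P)) (res (MP P))
      (fun a b => t * FF P a ((b : Fin (MP P)) : ℕ)) (Real.exp (2 * t ^ 2 / D))
      (Real.exp_pos _) (fun a => hoeff_fin P a t)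
    have h3 : EL X (fun n => t * FF P (word c (3 * P) n)
        ((res (MP P) n : Fin (MP P)) : ℕ)) = t * EL X G := EL_mul X t G
    rw [h3, Real.log_exp, Fintype.card_fin, htE, ht2] at hdv
    have h4 : 2 * (ε / 8 * D) ^ 2 / D = ε ^ 2 / 32 * D := by
      field_simp
      ring
    rw [h4] at hdv
    have h5 : ε / 8 * D * (3 * ε / 4) ≤ ε / 8 * D * |EL X G| :=
      mul_le_mul_of_nonneg_left hELabs (by positivity)
    nlinarith
  rcases le_total 0 (EL X G) with h | h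
  · refine key (ε / 8 * D) rfl ?_
    rw [abs_of_nonneg h]
  · refine key (-(ε / 8 * D)) (by ring) ?_
    rw [abs_of_nonpos h]
    ring

theorem MP_log (P : ℕ) : Real.log (MP P) ≤ 2 * P * Real.log 4 := by
  have h1 : MP P ≤ primorial (2 * P) := by
    unfold MP primorial dyP
    refine Finset.prod_le_prod_of_subset_of_one_le' ?_ ?_
    · intro p hp
      rw [Finset.mem_filter] at hp ⊢
      refine ⟨?_, hp.2⟩
      have := (Finset.mem_Ioc.1 hp.1).2
      simp only [Finset.mem_range]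
      omega
    · intro p hp _
      exact (Finset.mem_filter.1 hp).2.one_lt.le
  have h2 : MP P ≤ 4 ^ (2 * P) := le_trans h1 (primorial_le_four_pow _)
  have h3 : (MP P : ℝ) ≤ (4 : ℝ) ^ (2 * P) := by exact_mod_cast h2
  have h4 : (0 : ℝ) < MP P := by
    have := Nat.pos_of_ne_zero (MP_ne P)
    exact_mod_cast this
  have h5 := Real.log_le_log h4 h3
  rw [Real.log_pow] at h5
  push_cast at h5
  exact h5

end MRA
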