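import Pool.Agent.Helper6.MR.Iface

/-!
# Block A of project MR: the entropy decrement argument (definitions)

All entropies are taken with respect to the logarithmic weights `1/n` on `[1, X]`.
`word c L n` is the word `(c n, ..., c (n + L - 1))`, the scale `P` uses words of length `3 * P`
and the residue `n mod MP P`, where `MP P` is the product of the primes in `(P, 2P]`.
-/

set_option autoImplicit false

namespace MRA

open Finset MRP

/-- The law of `f` under the logarithmic weights on `[1, X]`. -/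
noncomputable def law {α : Type} [DecidableEq α] (X : ℕ) (f : ℕ → α) (a : α) : ℝ :=
  (∑ n ∈ (Icc 1 X).filter (fun n => f n = a), 1 / (n : ℝ)) / LS X

/-- Logarithmic mean of `F` on `[1, X]`. -/
noncomputable def EL (X : ℕ) (F : ℕ → ℝ) : ℝ := (∑ n ∈ Icc 1 X, (1 / (n : ℝ)) * F n) / LS X

/-- Shannon entropy of `f`. -/
noncomputable def ent {α : Type} [Fintype α] [DecidableEq α] (X : ℕ) (f : ℕ → α) : ℝ :=
  ∑ a : α, Real.negMulLog (law X f a)

/-- The word of length `L` at `n`. -/
def word (c : ℕ → Bool × Bool) (L n : ℕ) : Fin L → Bool × Bool := fun j => c (n + (j : ℕ))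

/-- The residue of `n` modulo `M`. -/
def res (M : ℕ) [NeZero M] (n : ℕ) : Fin M := ⟨n % M, Nat.mod_lt _ (NeZero.pos M)⟩

/-- `0/1` value of a Boolean. -/
noncomputable def bo (b : Bool) : ℝ := if b = true then 1 else 0

/-- First coordinate of the letter number `j`. -/
noncomputable def g1 {L : ℕ} (v : Fin L → Bool × Bool) (j : ℕ) : ℝ :=
  if h : j < L then bo (v ⟨j, h⟩).1 else 0

/-- Second coordinate of the letter number `j`. -/
noncomputable def g2 {L : ℕ} (v : Fin L → Bool × Bool) (j : ℕ) : ℝ :=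
  if h : j < L then bo (v ⟨j, h⟩).2 else 0

/-- The contribution of the prime `p` at scale `P`. -/
noncomputable def fp (P p : ℕ) {L : ℕ} (v : Fin L → Bool × Bool) (r : ℕ) : ℝ :=
  (1 / (P : ℝ)) * ∑ j ∈ range P,
    (((if p ∣ r + j then (p : ℝ) else 0) - 1) * (g1 v j * g2 v (j + p)))

/-- The average over the primes in `(P, 2P]`. -/
noncomputable def FF (P : ℕ) {L : ℕ} (v : Fin L → Bool × Bool) (r : ℕ) : ℝ :=
  (1 / ((dyP P).card : ℝ)) * ∑ p ∈ dyP P, fp P p v r

/-- The product of the primes in `(P, 2P]`. -/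
def MP (P : ℕ) : ℕ := ∏ p ∈ dyP P, p

theorem MP_ne (P : ℕ) : MP P ≠ 0 := by
  unfold MP
  refine Finset.prod_ne_zero_iff.2 fun p hp => ?_
  unfold dyP at hp
  exact (Finset.mem_filter.1 hp).2.ne_zero

instance (P : ℕ) : NeZero (MP P) := ⟨MP_ne P⟩

/-- The quantity which the entropy decrement makes small at some scale `P`. -/
noncomputable def QQ (X P : ℕ) (c : ℕ → Bool × Bool) : ℝ :=
  (1 / ((dyP P).card : ℝ)) * ∑ p ∈ dyP P, ∑ n ∈ Icc 1 X,
    (1 / (n : ℝ)) * (((if p ∣ n then (p : ℝ) else 0) - 1) * (bo (c n).1 * bo (c (n + p)).2))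

/-- The sequence of scales. -/
noncomputable def seqP (K : ℝ) (P0 : ℕ) : ℕ → ℕ
  | 0 => P0
  | i + 1 => (⌈K * Real.log (seqP K P0 i)⌉₊ + 2) * seqP K P0 i

end MRA
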