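import Pool.Agent.Helper11.MRA.GenEnt

/-!
# MRA-19 Ent: block A

`dil`: for a prime `p` and `X ≥ 1`,
`|∑_{n≤X} (1/n) a(Ω n) b(Ω(n+1)) - ∑_{n≤X} (1/n) (p 1_{p ∣ n}) a1(Ω n) b1(Ω(n+p))| ≤ p`, where
`a1 = dn a`, `b1 = dn b`: the second sum runs over `n = p m`, `m ≤ X/p`, and its terms are
`(1/m) a(Ω m) b(Ω(m+1))` because `Ω(p m) = Ω(m) + 1` (`m ≥ 1`), `Ω(p m + p) = Ω(m+1) + 1` and
`dn a (s + 1) = a s`.  The difference is `∑_{X/p < m ≤ X} (1/m) (..)`, at most `X` terms, each at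
most `p/X`.

`ENT_holds`: given `ε, P0`, use `genEnt (ε/2) (max P0 1)` with
`c n = (decide (dn a (Ω n) = 1), decide (dn b (Ω n) = 1))`, so that
`bo (c n).1 = dn a (Ω n)`, `bo (c n).2 = dn b (Ω n)`.  `dyP P` is nonempty for `P ≥ 1`
(`Nat.exists_prime_lt_and_le_two_mul`), so the average over `p ∈ dyP P` of `dil` has error
`≤ 2P ≤ 2 P1 ≤ (ε/2) log X` for `X` large, and
`(1/|D|) ∑_p ∑_n (1/n) (p 1_{p∣n}) a1 b1 - (1/|D|) ∑_p ∑_n (1/n) a1 b1 = QQ X P c`.
-/

set_option autoImplicit false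

namespace MRA

open Finset MRP

theorem dil {p : ℕ} (hp : p.Prime) {X : ℕ} (hX : 1 ≤ X) (a b : ℕ → ℝ)
    (ha : ∀ m, a m = 0 ∨ a m = 1) (hb : ∀ m, b m = 0 ∨ b m = 1) :
    |(∑ n ∈ Icc 1 X, (1 / (n : ℝ)) * (a (Om n) * b (Om (n + 1)))) -
      ∑ n ∈ Icc 1 X, (1 / (n : ℝ)) *
        ((if p ∣ n then (p : ℝ) else 0) * (dn a (Om n) * dn b (Om (n + p))))| ≤ p := by
  set h : ℕ → ℝ := fun m => (1 / (m : ℝ)) * (a (Om m) * b (Om (m + 1))) with hh
  have hp0 : (0 : ℝ) < p := by exact_mod_cast hp.pos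
  have hXr : (0 : ℝ) < X := by exact_mod_cast hX
  have hOm : ∀ m : ℕ, 1 ≤ m → Om (p * m) = Om m + 1 := by
    intro m hm
    have h1 : Om (p * m) = Om p + Om m :=
      ArithmeticFunction.cardFactors_mul hp.ne_zero (by omega)
    have h2 : Om p = 1 := ArithmeticFunction.cardFactors_apply_prime hp
    rw [h1, h2, add_comm]
  have hS2 : ∑ n ∈ Icc 1 X, (1 / (n : ℝ)) *
        ((if p ∣ n then (p : ℝ) else 0) * (dn a (Om n) * dn b (Om (n + p)))) =
      ∑ m ∈ Icc 1 (X / p), h m := by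
    have h1 : ∑ n ∈ Icc 1 X, (1 / (n : ℝ)) *
        ((if p ∣ n then (p : ℝ) else 0) * (dn a (Om n) * dn b (Om (n + p)))) =
        ∑ n ∈ (Icc 1 X).filter (fun n => p ∣ n), (1 / (n : ℝ)) *
          ((p : ℝ) * (dn a (Om n) * dn b (Om (n + p)))) := by
      rw [Finset.sum_filter]
      refine Finset.sum_congr rfl fun n _ => ?_
      split_ifs <;> simp
    rw [h1]
    have h2 : (Icc 1 X).filter (fun n => p ∣ n) = (Icc 1 (X / p)).image (fun m => p * m) := by
      ext n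
      simp only [Finset.mem_filter, Finset.mem_Icc, Finset.mem_image]
      constructor
      · rintro ⟨⟨hn1, hn2⟩, m, rfl⟩
        refine ⟨m, ⟨?_, ?_⟩, rfl⟩
        · rcases Nat.eq_zero_or_pos m with h0 | h0
          · subst h0; simp at hn1
          · exact h0
        · rw [Nat.le_div_iff_mul_le hp.pos]
          rwa [mul_comm]
      · rintro ⟨m, ⟨hm1, hm2⟩, rfl⟩
        rw [Nat.le_div_iff_mul_le hp.pos] at hm2
        refine ⟨⟨?_, ?_⟩, dvd_mul_right _ _⟩
        · exact Nat.mul_pos hp.pos hm1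
        · rwa [mul_comm]
    rw [h2, Finset.sum_image]
    · refine Finset.sum_congr rfl fun m hm => ?_
      have hm1 : 1 ≤ m := (Finset.mem_Icc.1 hm).1
      have hm0 : (m : ℝ) ≠ 0 := by
        have : (0 : ℝ) < m := by exact_mod_cast hm1
        exact this.ne'
      have e1 : dn a (Om (p * m)) = a (Om m) := by
        unfold dn
        rw [hOm m hm1, Nat.add_sub_cancel]
      have e2 : dn b (Om (p * m + p)) = b (Om (m + 1)) := by
        unfold dn
        have : p * m + p = p * (m + 1) := by ring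
        rw [this, hOm (m + 1) (by omega), Nat.add_sub_cancel]
      rw [e1, e2, hh]
      push_cast
      field_simp
    · intro x _ y _ hxy
      exact Nat.eq_of_mul_eq_mul_left hp.pos hxy
  have hS1 : ∑ n ∈ Icc 1 X, (1 / (n : ℝ)) * (a (Om n) * b (Om (n + 1))) =
      (∑ m ∈ Icc 1 (X / p), h m) + ∑ m ∈ Ioc (X / p) X, h m := by
    have hd : Disjoint (Icc 1 (X / p)) (Ioc (X / p) X) := by
      rw [Finset.disjoint_left]
      intro x hx hx'
      rw [Finset.mem_Icc] at hx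
      rw [Finset.mem_Ioc] at hx'
      omega
    rw [← Finset.sum_union hd]
    refine Finset.sum_congr ?_ fun _ _ => rfl
    ext x
    simp only [Finset.mem_union, Finset.mem_Icc, Finset.mem_Ioc]
    have : X / p ≤ X := Nat.div_le_self _ _
    generalize X / p = q at *
    constructor
    · intro hx
      omega
    · rintro (hx | hx) <;> omega
  rw [hS2, hS1, add_sub_cancel_left]
  have hb1 : ∀ m ∈ Ioc (X / p) X, |h m| ≤ (p : ℝ) / X := by
    intro m hm
    rw [Finset.mem_Ioc] at hm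
    have hlt : X < m * p := (Nat.div_lt_iff_lt_mul hp.pos).1 hm.1
    have hm1 : 1 ≤ m := Nat.succ_le_of_lt (lt_of_le_of_lt (Nat.zero_le _) hm.1)
    have hmr : (0 : ℝ) < m := by exact_mod_cast hm1
    have hlt' : (X : ℝ) < m * p := by exact_mod_cast hlt
    have hab : |a (Om m) * b (Om (m + 1))| ≤ 1 := by
      rcases ha (Om m) with h1 | h1 <;> rcases hb (Om (m + 1)) with h2 | h2 <;>
        rw [h1, h2] <;> norm_num
    have e1 : |h m| = (1 / (m : ℝ)) * |a (Om m) * b (Om (m + 1))| := by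
      rw [hh]
      simp only
      rw [abs_mul, abs_of_pos (by positivity : (0 : ℝ) < 1 / (m : ℝ))]
    rw [e1]
    calc (1 / (m : ℝ)) * |a (Om m) * b (Om (m + 1))| ≤ (1 / (m : ℝ)) * 1 :=
          mul_le_mul_of_nonneg_left hab (by positivity)
      _ = 1 / (m : ℝ) := by ring
      _ ≤ (p : ℝ) / X := by
          rw [div_le_div_iff₀ hmr hXr]
          linarith
  calc |∑ m ∈ Ioc (X / p) X, h m| ≤ ∑ m ∈ Ioc (X / p) X, |h m| := Finset.abs_sum_le_sum_abs _ _
    _ ≤ ∑ m ∈ Ioc (X / p) X, (p : ℝ) / X := Finset.sum_le_sum hb1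
    _ = ((X - X / p : ℕ) : ℝ) * ((p : ℝ) / X) := by
        rw [Finset.sum_const, Nat.card_Ioc, nsmul_eq_mul]
    _ ≤ (X : ℝ) * ((p : ℝ) / X) := by
        refine mul_le_mul_of_nonneg_right ?_ (by positivity)
        exact_mod_cast Nat.sub_le _ _
    _ = p := by field_simp

theorem bo_decide (x : ℝ) (hx : x = 0 ∨ x = 1) : bo (decide (x = 1)) = x := by
  unfold bo
  rcases hx with h | h
  · subst h; simp
  · subst h; simp

theorem ENT_holds : ENT := by
  intro ε hε P0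
  obtain ⟨P1, X0, hgen⟩ := genEnt (ε / 2) (by positivity) (max P0 1)
  refine ⟨P1, max X0 (max 1 ⌈Real.exp (4 * (P1 : ℝ) / ε)⌉₊), ?_⟩
  intro X hX a b ha hb
  have hX0 : X0 ≤ X := le_trans (le_max_left _ _) hX
  have hX1 : 1 ≤ X := le_trans (le_trans (le_max_left _ _) (le_max_right _ _)) hX
  have hX2 : Real.exp (4 * (P1 : ℝ) / ε) ≤ X :=
    le_trans (Nat.le_ceil _)
      (by exact_mod_cast le_trans (le_trans (le_max_right _ _) (le_max_right _ _)) hX)
  have hXpos : (0 : ℝ) < X := by exact_mod_cast hX1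
  have hlog : 4 * (P1 : ℝ) / ε ≤ Real.log X := (Real.le_log_iff_exp_le hXpos).2 hX2
  have hlog' : 2 * (P1 : ℝ) ≤ ε / 2 * Real.log X := by
    rw [div_le_iff₀ hε] at hlog
    linarith
  have hda : ∀ m, dn a m = 0 ∨ dn a m = 1 := fun m => ha (m - 1)
  have hdb : ∀ m, dn b m = 0 ∨ dn b m = 1 := fun m => hb (m - 1)
  set c : ℕ → Bool × Bool := fun n => (decide (dn a (Om n) = 1), decide (dn b (Om n) = 1))
    with hc
  obtain ⟨P, hP0, hP1, hQ⟩ := hgen X hX0 c
  have hPpos : 1 ≤ P := le_trans (le_max_right _ _) hP0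
  refine ⟨P, le_trans (le_max_left _ _) hP0, hP1, ?_⟩
  have hc1 : ∀ n, bo (c n).1 = dn a (Om n) := fun n => bo_decide _ (hda _)
  have hc2 : ∀ n, bo (c n).2 = dn b (Om n) := fun n => bo_decide _ (hdb _)
  set T : ℝ := ∑ n ∈ Icc 1 X, (1 / (n : ℝ)) * (a (Om n) * b (Om (n + 1))) with hT
  set U : ℕ → ℝ := fun p => ∑ n ∈ Icc 1 X, (1 / (n : ℝ)) *
        ((if p ∣ n then (p : ℝ) else 0) * (dn a (Om n) * dn b (Om (n + p)))) with hU
  set V : ℕ → ℝ := fun p => ∑ n ∈ Icc 1 X, (1 / (n : ℝ)) *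
        (dn a (Om n) * dn b (Om (n + p))) with hV
  have hQQ : QQ X P c = (1 / ((dyP P).card : ℝ)) * ∑ p ∈ dyP P, (U p - V p) := by
    unfold QQ
    congr 1
    refine Finset.sum_congr rfl fun p _ => ?_
    rw [hU, hV]
    simp only
    rw [← Finset.sum_sub_distrib]
    refine Finset.sum_congr rfl fun n _ => ?_
    rw [hc1, hc2]
    ring
  have hcard : (0 : ℝ) < ((dyP P).card : ℝ) := by
    obtain ⟨q, hq, hq1, hq2⟩ := Nat.exists_prime_lt_and_le_two_mul P (by omega)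
    have : 0 < (dyP P).card := by
      refine Finset.card_pos.2 ⟨q, ?_⟩
      unfold dyP
      rw [Finset.mem_filter, Finset.mem_Ioc]
      exact ⟨⟨hq1, hq2⟩, hq⟩
    exact_mod_cast this
  have hTU : |∑ p ∈ dyP P, (T - U p)| ≤ ((dyP P).card : ℝ) * (2 * P1) := by
    calc |∑ p ∈ dyP P, (T - U p)| ≤ ∑ p ∈ dyP P, |T - U p| := Finset.abs_sum_le_sum_abs _ _
      _ ≤ ∑ p ∈ dyP P, (2 * (P1 : ℝ)) := by
          refine Finset.sum_le_sum fun p hp => ?_
          unfold dyP at hp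
          rw [Finset.mem_filter, Finset.mem_Ioc] at hp
          have h1 := dil hp.2 hX1 a b ha hb
          have h2 : (p : ℝ) ≤ 2 * P1 := by
            have : p ≤ 2 * P1 := by omega
            exact_mod_cast this
          exact le_trans h1 h2
      _ = ((dyP P).card : ℝ) * (2 * P1) := by
          rw [Finset.sum_const, nsmul_eq_mul]
  have hdec : T - (1 / ((dyP P).card : ℝ)) * ∑ p ∈ dyP P, V p =
      (1 / ((dyP P).card : ℝ)) * (∑ p ∈ dyP P, (T - U p)) + QQ X P c := by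
    rw [hQQ, ← mul_add, ← Finset.sum_add_distrib]
    have h1 : ∑ p ∈ dyP P, (T - U p + (U p - V p)) =
        ((dyP P).card : ℝ) * T - ∑ p ∈ dyP P, V p := by
      rw [← nsmul_eq_mul, ← Finset.sum_const, ← Finset.sum_sub_distrib]
      refine Finset.sum_congr rfl fun p _ => ?_
      ring
    rw [h1]
    field_simp
  have hfin : |T - (1 / ((dyP P).card : ℝ)) * ∑ p ∈ dyP P, V p| ≤ ε * Real.log X := by
    rw [hdec]
    have h1 : |(1 / ((dyP P).card : ℝ)) * (∑ p ∈ dyP P, (T - U p))| ≤ 2 * P1 := by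
      rw [abs_mul, abs_of_pos (by positivity : (0 : ℝ) < 1 / ((dyP P).card : ℝ)),
        one_div, inv_mul_le_iff₀ hcard]
      exact hTU
    have h2 := abs_add_le ((1 / ((dyP P).card : ℝ)) * (∑ p ∈ dyP P, (T - U p))) (QQ X P c)
    linarith
  exact hfin

end MRA
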