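import Pool.Agent.Helper11.MRA.Defs

/-!
# MRA-16 Seq: the scales `P_{i+1} = (⌈K log P_i⌉ + 2) P_i` satisfy `∑ 1/log P_i = ∞`

`x_i = log P_i` satisfies `x_{i+1} ≤ x_i + log (K x_i + 3)` and `x_{i+1} ≥ x_i + log 2`, so
`x_i → ∞`.  There is `C = C(K)` with `log (K x + 3) ≤ C log x` for all `x ≥ log 3 > 1` (or for
`x ≥ 2`, say; `log x > 0` there), hence by the mean value theorem
`log log x_{i+1} - log log x_i ≤ (x_{i+1} - x_i) / (x_i log x_i) ≤ C / x_i`
(`log log` is concave / has the decreasing derivative `1/(x log x)` on `(1, ∞)`).  Summing,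
`C ∑_{i<I} 1/x_i ≥ log log x_I - log log x_0 → ∞`.
(`P0 ≥ 3` gives `x_0 ≥ log 3 > 1`.)
-/

set_option autoImplicit false

namespace MRA

open Finset MRP

private theorem seqP_step (K : ℝ) (P0 i : ℕ) : 2 * seqP K P0 i ≤ seqP K P0 (i + 1) := by
  show 2 * seqP K P0 i ≤ (⌈K * Real.log (seqP K P0 i)⌉₊ + 2) * seqP K P0 i
  exact Nat.mul_le_mul_right _ (by omega)

theorem seqP_ge (K : ℝ) (P0 i : ℕ) : P0 ≤ seqP K P0 i := by
  induction i with
  | zero => exact le_refl _
  | succ i ih =>
    have := seqP_step K P0 i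
    omega

theorem seqP_mono (K : ℝ) (P0 : ℕ) : Monotone (seqP K P0) := by
  refine monotone_nat_of_le_succ fun i => ?_
  have := seqP_step K P0 i
  omega

theorem seqP_div (K : ℝ) (hK : 0 < K) (P0 : ℕ) (hP0 : 3 ≤ P0) (B : ℝ) :
    ∃ I : ℕ, B ≤ ∑ i ∈ range I, 1 / Real.log (seqP K P0 i) := by
  set x : ℕ → ℝ := fun i => Real.log (seqP K P0 i) with hx
  set a : ℝ := Real.log 3 with ha
  have ha1 : 1 < a := by
    have h : Real.exp 1 < 3 := lt_trans Real.exp_one_lt_d9 (by norm_num)
    calc (1 : ℝ) = Real.log (Real.exp 1) := by simp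
      _ < Real.log 3 := Real.log_lt_log (Real.exp_pos 1) h
  have hla : 0 < Real.log a := Real.log_pos ha1
  have hP3 : ∀ i, (3 : ℝ) ≤ (seqP K P0 i : ℝ) := fun i => by
    exact_mod_cast hP0.trans (seqP_ge K P0 i)
  have hxa : ∀ i, a ≤ x i := fun i => Real.log_le_log (by norm_num) (hP3 i)
  have hx1 : ∀ i, 1 < x i := fun i => lt_of_lt_of_le ha1 (hxa i)
  have hlx : ∀ i, 0 < Real.log (x i) := fun i => Real.log_pos (hx1 i)
  -- the recursion
  have hrec : ∀ i, x (i + 1) = Real.log ((⌈K * x i⌉₊ : ℝ) + 2) + x i := fun i => by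
    have h1 : x (i + 1) = Real.log (((⌈K * x i⌉₊ + 2) * seqP K P0 i : ℕ) : ℝ) := rfl
    rw [h1]
    push_cast
    rw [Real.log_mul (by positivity) (by linarith [hP3 i])]
  set C : ℝ := Real.log (K + 3) / Real.log a + 1 with hC
  have hlK : 0 < Real.log (K + 3) := Real.log_pos (by linarith)
  have hCpos : 0 < C := by positivity
  have hup : ∀ i, x (i + 1) - x i ≤ C * Real.log (x i) := fun i => by
    rw [hrec i, add_sub_cancel_right]
    have h0 : 0 ≤ K * x i := by
      have := hx1 i
      positivity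
    have hce : ((⌈K * x i⌉₊ : ℝ)) < K * x i + 1 := Nat.ceil_lt_add_one h0
    have h1 : ((⌈K * x i⌉₊ : ℝ)) + 2 ≤ (K + 3) * x i := by
      have := hx1 i
      nlinarith
    have h2 : Real.log (((⌈K * x i⌉₊ : ℝ)) + 2) ≤ Real.log ((K + 3) * x i) :=
      Real.log_le_log (by positivity) h1
    rw [Real.log_mul (by linarith) (by linarith [hx1 i])] at h2
    have h3 : Real.log (K + 3) ≤ Real.log (K + 3) / Real.log a * Real.log (x i) := by
      have h4 : Real.log a ≤ Real.log (x i) := Real.log_le_log (by linarith) (hxa i)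
      calc Real.log (K + 3) = Real.log (K + 3) / Real.log a * Real.log a := by
            field_simp
        _ ≤ _ := by gcongr
    calc _ ≤ Real.log (K + 3) + Real.log (x i) := h2
      _ ≤ Real.log (K + 3) / Real.log a * Real.log (x i) + Real.log (x i) := by linarith
      _ = C * Real.log (x i) := by rw [hC]; ring
  have hlow : ∀ i, x i + Real.log 2 ≤ x (i + 1) := fun i => by
    rw [hrec i]
    have : Real.log 2 ≤ Real.log ((⌈K * x i⌉₊ : ℝ) + 2) :=
      Real.log_le_log (by norm_num) (by
        have : (0 : ℝ) ≤ (⌈K * x i⌉₊ : ℝ) := Nat.cast_nonneg _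
        linarith)
    linarith
  have hlin : ∀ i : ℕ, (i : ℝ) * Real.log 2 ≤ x i := fun i => by
    induction i with
    | zero => simp; linarith [hx1 0]
    | succ i ih =>
      have := hlow i
      push_cast
      linarith
  -- telescoping
  have hdiff : ∀ i, Real.log (Real.log (x (i + 1))) - Real.log (Real.log (x i)) ≤ C / x i :=
    fun i => by
    have hxi := hx1 i
    have hxi' := hx1 (i + 1)
    have e1 : Real.log (Real.log (x (i + 1))) - Real.log (Real.log (x i)) ≤
        (Real.log (x (i + 1)) - Real.log (x i)) / Real.log (x i) := by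
      rw [← Real.log_div (hlx (i + 1)).ne' (hlx i).ne']
      refine (Real.log_le_sub_one_of_pos (div_pos (hlx (i + 1)) (hlx i))).trans (le_of_eq ?_)
      rw [sub_div, div_self (hlx i).ne']
    have e2 : Real.log (x (i + 1)) - Real.log (x i) ≤ (x (i + 1) - x i) / x i := by
      rw [← Real.log_div (by linarith) (by linarith)]
      refine (Real.log_le_sub_one_of_pos (by positivity)).trans (le_of_eq ?_)
      rw [sub_div, div_self (by linarith : x i ≠ 0)]
    have hxp : 0 < x i := by linarith
    calc _ ≤ (Real.log (x (i + 1)) - Real.log (x i)) / Real.log (x i) := e1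
      _ ≤ ((x (i + 1) - x i) / x i) / Real.log (x i) := by
          have := hlx i
          gcongr
      _ ≤ ((C * Real.log (x i)) / x i) / Real.log (x i) := by
          have := hlx i
          have := hup i
          gcongr
      _ = C / x i := by
          have := (hlx i).ne'
          field_simp
  have hsum : ∀ I : ℕ, Real.log (Real.log (x I)) - Real.log (Real.log (x 0)) ≤
      C * ∑ i ∈ range I, 1 / x i := fun I => by
    rw [← Finset.sum_range_sub (fun i => Real.log (Real.log (x i))) I, Finset.mul_sum]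
    refine Finset.sum_le_sum fun i _ => (hdiff i).trans (le_of_eq ?_)
    rw [mul_one_div]
  -- choice of the index
  set T : ℝ := C * B + Real.log (Real.log (x 0)) with hT
  have hlog2 : 0 < Real.log 2 := Real.log_pos (by norm_num)
  obtain ⟨I, hI⟩ := exists_nat_ge (Real.exp (Real.exp T) / Real.log 2)
  refine ⟨I, ?_⟩
  have hI2 : Real.exp (Real.exp T) ≤ x I := by
    rw [div_le_iff₀ hlog2] at hI
    exact hI.trans (hlin I)
  have hI3 : T ≤ Real.log (Real.log (x I)) := by
    have h1 : Real.exp T ≤ Real.log (x I) := by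
      rw [← Real.log_exp (Real.exp T)]
      exact Real.log_le_log (Real.exp_pos _) hI2
    rw [← Real.log_exp T]
    exact Real.log_le_log (Real.exp_pos _) h1
  have h2 := hsum I
  have h3 : C * B ≤ C * ∑ i ∈ range I, 1 / x i := by
    rw [hT] at hI3
    linarith
  exact le_of_mul_le_mul_left h3 hCpos

end MRA
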