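import Pool.Agent.Helper11.MRA.Scale
import Pool.Agent.Helper11.MRA.Seq
import Pool.Agent.Helper11.MRA.Cheb

/-!
# MRA-18 GenEnt: the entropy decrement theorem

For all `ε, P0` there are `P1, X0` such that for all `X ≥ X0` and all `c : ℕ → Bool × Bool` some
`P ∈ [P0, P1]` has `|QQ X P c| ≤ ε log X`.

Proof.  Let `c0`, `P*` be from `cheb`, `Q0 = max P0 P*` (`≥ 3`), `K = 96 log 4 / (ε^2 c0)`,
`P_i = seqP K Q0 i`, `k_i = ⌈K log P_i⌉₊ + 2`, so `P_{i+1} = k_i P_i` and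
`log 4 / k_i ≤ ε^2 c0 / (96 log P_i)`.
Choose `I` with `∑_{i<I} 1/log P_i ≥ 96 (log 4 + 2) / (ε^2 c0)` (`seqP_div`), and
`η = 1/(I+1)`; let `X0 ≥ 1` be at least all thresholds of `scale ε P_i k_i η`, `i < I`.
Put `P1 = P_I`.  Suppose `|QQ X P_i c| > ε log X` for all `i < I`.  Then with
`h_i = H(word c (3 P_i))/(3 P_i)`, `scale` and `cheb` give
`h_{i+1} ≤ h_i - (ε^2 c0)/(48 log P_i) + (ε^2 c0)/(96 log P_i) + η
        = h_i - (ε^2 c0)/(96 log P_i) + η`,
so `0 ≤ h_I ≤ h_0 - (log 4 + 2) + I η ≤ log 4 - log 4 - 2 + 1 < 0` (`ent_word_le`: `h_0 ≤ log 4`),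
a contradiction.
-/

set_option autoImplicit false

namespace MRA

open Finset MRP

/-- The scales tend to infinity, so the sum of the decrements is unbounded. -/
theorem genEnt (ε : ℝ) (hε : 0 < ε) (P0 : ℕ) : ∃ P1 X0 : ℕ, ∀ X : ℕ, X0 ≤ X →
    ∀ c : ℕ → Bool × Bool, ∃ P : ℕ, P0 ≤ P ∧ P ≤ P1 ∧ |QQ X P c| ≤ ε * Real.log X := by
  obtain ⟨c0, hc0, Ps, hPs, hch⟩ := cheb
  have hl4 : 0 < Real.log 4 := Real.log_pos (by norm_num)
  set Q0 : ℕ := max P0 Ps with hQ0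
  have hQ3 : 3 ≤ Q0 := le_trans hPs (le_max_right _ _)
  have hQP : P0 ≤ Q0 := le_max_left _ _
  set K : ℝ := 96 * Real.log 4 / (ε ^ 2 * c0) with hK
  have hKpos : 0 < K := by positivity
  obtain ⟨I, hI⟩ := seqP_div K hKpos Q0 hQ3 (96 * (Real.log 4 + 2) / (ε ^ 2 * c0))
  set S : ℕ → ℕ := seqP K Q0 with hS
  have hS0 : S 0 = Q0 := rfl
  have hSs : ∀ i, S (i + 1) = (⌈K * Real.log (S i)⌉₊ + 2) * S i := fun i => rfl
  have hSge : ∀ i, Q0 ≤ S i := fun i => seqP_ge K Q0 i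
  have hSmono : Monotone S := seqP_mono K Q0
  have hlogS : ∀ i, 0 < Real.log (S i) := fun i => Real.log_pos (by
    have h3 : (3 : ℝ) ≤ (S i : ℝ) := by exact_mod_cast le_trans hQ3 (hSge i)
    linarith)
  have hη : (0 : ℝ) < 1 / ((I : ℝ) + 1) := by positivity
  have hsc : ∀ i : ℕ, ∃ X0 : ℕ, ∀ X : ℕ, X0 ≤ X → ∀ c : ℕ → Bool × Bool,
      ε * Real.log X < |QQ X (S i) c| →
      ent X (word c (3 * S (i + 1))) / (3 * (S (i + 1) : ℕ) : ℝ) ≤
        ent X (word c (3 * S i)) / (3 * (S i : ℕ) : ℝ) -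
          ε ^ 2 / 48 * (((dyP (S i)).card : ℝ) / S i) +
          Real.log 4 / ((⌈K * Real.log (S i)⌉₊ + 2 : ℕ) : ℝ) + 1 / ((I : ℝ) + 1) := by
    intro i
    rw [hSs i]
    exact scale ε hε (S i) (⌈K * Real.log (S i)⌉₊ + 2)
      (le_trans (by omega) (hSge i)) (by omega) (1 / ((I : ℝ) + 1)) hη
  choose X0 hX0 using hsc
  refine ⟨S I, max 1 ((range I).sup X0), ?_⟩
  intro X hX c
  have hX1 : 1 ≤ X := le_trans (le_max_left _ _) hX
  have hX2 : (range I).sup X0 ≤ X := le_trans (le_max_right _ _) hX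
  by_contra hcon
  push Not at hcon
  have hbig : ∀ i ∈ range I, ε * Real.log X < |QQ X (S i) c| := by
    intro i hi
    exact hcon (S i) (le_trans hQP (hSge i)) (hSmono (le_of_lt (mem_range.1 hi)))
  have hstep : ∀ i ∈ range I,
      ent X (word c (3 * S (i + 1))) / (3 * (S (i + 1) : ℕ) : ℝ) ≤
        ent X (word c (3 * S i)) / (3 * (S i : ℕ) : ℝ) -
          ε ^ 2 * c0 / 96 * (1 / Real.log (S i)) + 1 / ((I : ℝ) + 1) := by
    intro i hi
    have h1 := hX0 i X (le_trans (Finset.le_sup (f := X0) hi) hX2) c (hbig i hi)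
    have hSpos : (0 : ℝ) < (S i : ℝ) := by
      have h3 : 0 < S i := lt_of_lt_of_le (by omega) (hSge i)
      exact_mod_cast h3
    have h2 : c0 / Real.log (S i) ≤ ((dyP (S i)).card : ℝ) / S i := by
      rw [le_div_iff₀ hSpos, div_mul_eq_mul_div]
      exact hch (S i) (le_trans (le_max_right _ _) (hSge i))
    have h3 : ε ^ 2 / 48 * (c0 / Real.log (S i)) ≤
        ε ^ 2 / 48 * (((dyP (S i)).card : ℝ) / S i) :=
      mul_le_mul_of_nonneg_left h2 (by positivity)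
    have h4 : Real.log 4 / ((⌈K * Real.log (S i)⌉₊ + 2 : ℕ) : ℝ) ≤
        ε ^ 2 * c0 / 96 * (1 / Real.log (S i)) := by
      have h5 : K * Real.log (S i) ≤ ((⌈K * Real.log (S i)⌉₊ + 2 : ℕ) : ℝ) := by
        push_cast
        have := Nat.le_ceil (K * Real.log (S i))
        linarith
      have h6 : 0 < K * Real.log (S i) := mul_pos hKpos (hlogS i)
      calc Real.log 4 / ((⌈K * Real.log (S i)⌉₊ + 2 : ℕ) : ℝ)
          ≤ Real.log 4 / (K * Real.log (S i)) :=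
            div_le_div_of_nonneg_left hl4.le h6 h5
        _ = ε ^ 2 * c0 / 96 * (1 / Real.log (S i)) := by
            have := (hlogS i).ne'
            rw [hK]
            field_simp
    have h7 : ε ^ 2 / 48 * (c0 / Real.log (S i)) =
        ε ^ 2 * c0 / 96 * (1 / Real.log (S i)) + ε ^ 2 * c0 / 96 * (1 / Real.log (S i)) := by
      ring
    linarith
  have htot : ∀ n ≤ I, ent X (word c (3 * S n)) / (3 * (S n : ℕ) : ℝ) ≤
      ent X (word c (3 * S 0)) / (3 * (S 0 : ℕ) : ℝ) -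
        ε ^ 2 * c0 / 96 * ∑ i ∈ range n, 1 / Real.log (S i) + n * (1 / ((I : ℝ) + 1)) := by
    intro n
    induction n with
    | zero => intro _; simp
    | succ n ih =>
      intro hn
      have h1 := ih (by omega)
      have h2 := hstep n (mem_range.2 (by omega))
      rw [sum_range_succ, mul_add]
      push_cast
      linarith
  have h1 := htot I le_rfl
  have h2 : (0 : ℝ) ≤ ent X (word c (3 * S I)) / (3 * (S I : ℕ) : ℝ) :=
    div_nonneg (ent_nonneg _ _) (by positivity)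
  have h3 : ent X (word c (3 * S 0)) / (3 * (S 0 : ℕ) : ℝ) ≤ Real.log 4 := by
    have hSpos : (0 : ℝ) < (S 0 : ℝ) := by
      have h3 : 0 < S 0 := lt_of_lt_of_le (by omega) (hSge 0)
      exact_mod_cast h3
    have h4 := ent_word_le hX1 c (3 * S 0)
    rw [div_le_iff₀ (by positivity)]
    push_cast at h4
    linarith
  have h4 : (I : ℝ) * (1 / ((I : ℝ) + 1)) ≤ 1 := by
    rw [mul_one_div, div_le_one (by positivity)]
    linarith
  have h5 : Real.log 4 + 2 ≤ ε ^ 2 * c0 / 96 * ∑ i ∈ range I, 1 / Real.log (S i) := by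
    have h6 : Real.log 4 + 2 = ε ^ 2 * c0 / 96 * (96 * (Real.log 4 + 2) / (ε ^ 2 * c0)) := by
      field_simp
    rw [h6]
    exact mul_le_mul_of_nonneg_left hI (by positivity)
  linarith

end MRA
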