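import Pool.Agent.Helper11.MRA.Basic

/-!
# MRA-02 Gibbs: Gibbs' inequality and the bound `ent ≤ log card`

* `gibbs`: for `p, q ≥ 0` on a finite type with `∑ q ≤ ∑ p` and `q i = 0 → p i = 0`:
  `∑ -p log p ≤ -∑ p log q`.  Proof: for `p i > 0` (hence `q i > 0`)
  `p i * log (q i / p i) ≤ p i * (q i / p i - 1) = q i - p i` (`Real.log_le_sub_one_of_pos`), for
  `p i = 0` the term is `0 ≤ q i = q i - p i`.  Sum up.
* `ent_le_card`: `gibbs` with `q = 1 / card`.
-/

set_option autoImplicit false

namespace MRA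

open Finset MRP

theorem gibbs {ι : Type} [Fintype ι] (p q : ι → ℝ) (hp : ∀ i, 0 ≤ p i) (hq : ∀ i, 0 ≤ q i)
    (hpq : ∀ i, q i = 0 → p i = 0) (hs : ∑ i, q i ≤ ∑ i, p i) :
    ∑ i, Real.negMulLog (p i) ≤ -∑ i, p i * Real.log (q i) := by
  have key : ∀ i, Real.negMulLog (p i) + p i * Real.log (q i) ≤ q i - p i := by
    intro i
    rcases (hp i).eq_or_lt with h | h
    · rw [← h]
      simp only [Real.negMulLog_zero, zero_mul, add_zero, sub_zero]
      exact hq i
    · have hqi : 0 < q i := by
        rcases (hq i).eq_or_lt with h0 | h0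
        · exact absurd (hpq i h0.symm) h.ne'
        · exact h0
      have h1 : Real.log (q i / p i) ≤ q i / p i - 1 :=
        Real.log_le_sub_one_of_pos (div_pos hqi h)
      have h2 : Real.log (q i / p i) = Real.log (q i) - Real.log (p i) :=
        Real.log_div hqi.ne' h.ne'
      have h3 : p i * (q i / p i - 1) = q i - p i := by
        field_simp
      have h4 : p i * Real.log (q i / p i) ≤ p i * (q i / p i - 1) :=
        mul_le_mul_of_nonneg_left h1 h.le
      rw [h3, h2] at h4
      unfold Real.negMulLog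
      linarith
  have hsum : ∑ i, (Real.negMulLog (p i) + p i * Real.log (q i)) ≤ ∑ i, (q i - p i) :=
    Finset.sum_le_sum fun i _ => key i
  rw [Finset.sum_add_distrib, Finset.sum_sub_distrib] at hsum
  linarith

theorem ent_le_card {α : Type} [Fintype α] [DecidableEq α] [Nonempty α] {X : ℕ} (hX : 1 ≤ X)
    (f : ℕ → α) : ent X f ≤ Real.log (Fintype.card α) := by
  have hc : (0 : ℝ) < Fintype.card α := by exact_mod_cast Fintype.card_pos
  have h := gibbs (law X f) (fun _ => 1 / (Fintype.card α : ℝ)) (law_nonneg X f)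
    (fun _ => by positivity) (fun i h0 => absurd h0 (by positivity)) (by
      rw [law_sum hX]
      simp only [Finset.sum_const, Finset.card_univ, nsmul_eq_mul]
      rw [mul_one_div, div_self hc.ne'])
  unfold ent
  refine h.trans (le_of_eq ?_)
  rw [← Finset.sum_mul, law_sum hX, one_mul, one_div, Real.log_inv, neg_neg]

theorem ent_word_le {X : ℕ} (hX : 1 ≤ X) (c : ℕ → Bool × Bool) (L : ℕ) :
    ent X (word c L) ≤ L * Real.log 4 := by
  refine (ent_le_card hX _).trans (le_of_eq ?_)
  have h : Fintype.card (Fin L → Bool × Bool) = 4 ^ L := by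
    simp [Fintype.card_prod]
  rw [h]
  push_cast
  rw [Real.log_pow]

end MRA
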