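import Pool.Agent.Helper11.MRA.DStep
import Pool.Agent.Helper11.MRA.Defect

/-!
# MRA-15 Scale: the decrement from scale `P` to scale `k P`

With `h(P) = H(word c (3P)) / (3P)`: if `|QQ X P c| > ε log X`, `X ≥ X0(ε, P, k, η)`, then
`h(kP) ≤ h(P) - (ε^2/48) |D|/P + log 4 / k + η`.
Proof: `dstep` with `L = 3P`, `M = MP P` (note `k * (3P) = 3 (kP)`), then `defect`:
`H(word c (3kP)) ≤ log M + k (H(V) - (ε^2/16)|D|) + η`; divide by `3kP ≥ 1` and use
`log M ≤ 2P log 4` (`MP_log`).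
-/

set_option autoImplicit false

namespace MRA

open Finset MRP

theorem scale (ε : ℝ) (hε : 0 < ε) (P k : ℕ) (hP : 1 ≤ P) (hk : 1 ≤ k) (η : ℝ) (hη : 0 < η) :
    ∃ X0 : ℕ, ∀ X : ℕ, X0 ≤ X → ∀ c : ℕ → Bool × Bool, ε * Real.log X < |QQ X P c| →
      ent X (word c (3 * (k * P))) / (3 * (k * P : ℕ) : ℝ) ≤
        ent X (word c (3 * P)) / (3 * (P : ℕ) : ℝ) -
          ε ^ 2 / 48 * (((dyP P).card : ℝ) / P) + Real.log 4 / k + η := by
  obtain ⟨X1, h1⟩ := dstep (3 * P) (MP P) k η hη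
  obtain ⟨X2, h2⟩ := defect ε hε P hP
  refine ⟨max X1 X2, fun X hX c hQ => ?_⟩
  have a1 := h1 X (le_trans (le_max_left _ _) hX) c
  have a2 := h2 X (le_trans (le_max_right _ _) hX) c hQ
  have a3 := MP_log P
  have e : k * (3 * P) = 3 * (k * P) := by ring
  rw [e] at a1
  have hP' : (1 : ℝ) ≤ P := by exact_mod_cast hP
  have hk' : (1 : ℝ) ≤ k := by exact_mod_cast hk
  have hP0 : (0 : ℝ) < P := by linarith
  have hk0 : (0 : ℝ) < k := by linarith
  have hlog : 0 < Real.log 4 := Real.log_pos (by norm_num)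
  set W := ent X (word c (3 * (k * P))) with hW
  set V := ent X (word c (3 * P)) with hV
  set VY := ent X (fun n => (word c (3 * P) n, res (MP P) n)) with hVY
  set D := ((dyP P).card : ℝ) with hD
  set LM := Real.log (MP P) with hLM
  have a4 : W ≤ 2 * P * Real.log 4 + k * (V - ε ^ 2 / 16 * D) + η := by
    have : (k : ℝ) * (VY - LM) ≤ k * (V - ε ^ 2 / 16 * D) :=
      mul_le_mul_of_nonneg_left (by linarith) hk0.le
    linarith
  push_cast
  rw [div_le_iff₀ (by positivity)]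
  have e2 : (V / (3 * (P : ℝ)) - ε ^ 2 / 48 * (D / P) + Real.log 4 / k + η) * (3 * ((k : ℝ) * P))
      = k * V - k * (ε ^ 2 / 16 * D) + 3 * P * Real.log 4 + 3 * (k * P) * η := by
    field_simp
    ring
  rw [e2]
  have h5 : 1 ≤ (k : ℝ) * P := by nlinarith
  have h6 : η ≤ 3 * ((k : ℝ) * P) * η := by nlinarith
  have h7 : 0 ≤ P * Real.log 4 := by positivity
  nlinarith

end MRA
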