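import Pool.Agent.Helper11.MRA.Gibbs

/-!
# MRA-03 Submod: submodularity of the entropy

`H(f,g,y) + H(y) ≤ H(f,y) + H(g,y)`.
Proof: `gibbs` on the type `α × β × γ` with `p (a,b,c) = law (f,g,y) (a,b,c)` and
`q (a,b,c) = law (f,y) (a,c) * law (g,y) (b,c) / law y c` (real division, `x / 0 = 0`).
-/

set_option autoImplicit false

namespace MRA

open Finset MRP

theorem submod_mono {α β : Type} [DecidableEq α] [DecidableEq β] (X : ℕ) (f : ℕ → α) (g : ℕ → β)
    (a : α) (b : β) (h : ∀ n, f n = a → g n = b) : law X f a ≤ law X g b := by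
  unfold law
  have hLS : 0 ≤ LS X := by
    unfold LS
    exact Finset.sum_nonneg fun n _ => by positivity
  refine div_le_div_of_nonneg_right ?_ hLS
  refine Finset.sum_le_sum_of_subset_of_nonneg ?_ fun n _ _ => by positivity
  intro n hn
  rw [Finset.mem_filter] at hn ⊢
  exact ⟨hn.1, h n hn.2⟩

theorem submod_swap {α β γ : Type} [DecidableEq α] [DecidableEq β] [DecidableEq γ] (X : ℕ)
    (f : ℕ → α) (g : ℕ → β) (y : ℕ → γ) (a : α) (b : β) (c : γ) :
    law X (fun n => (f n, g n, y n)) (a, b, c) = law X (fun n => (g n, f n, y n)) (b, a, c) := by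
  refine le_antisymm (submod_mono X _ _ _ _ ?_) (submod_mono X _ _ _ _ ?_) <;>
  · intro n hn
    simp only [Prod.mk.injEq] at hn ⊢
    exact ⟨hn.2.1, hn.1, hn.2.2⟩

theorem submod_aux {ι κ : Type} [Fintype ι] [DecidableEq ι] [Fintype κ] [DecidableEq κ] (X : ℕ)
    (F : ℕ → ι) (G : ℕ → κ) (r : ι → κ) (h : ∀ n, G n = r (F n)) (φ : κ → ℝ) :
    ∑ i, law X F i * φ (r i) = ∑ j, law X G j * φ j := by
  rw [← EL_eq X F (fun i => φ (r i)), ← EL_eq X G φ]
  congr 1
  funext n
  rw [h n]

theorem submod_ent {ι κ : Type} [Fintype ι] [DecidableEq ι] [Fintype κ] [DecidableEq κ] (X : ℕ)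
    (F : ℕ → ι) (G : ℕ → κ) (r : ι → κ) (h : ∀ n, G n = r (F n)) :
    ∑ i, law X F i * Real.log (law X G (r i)) = - ent X G := by
  rw [submod_aux X F G r h (fun j => Real.log (law X G j))]
  unfold ent
  rw [← Finset.sum_neg_distrib]
  refine Finset.sum_congr rfl fun j _ => ?_
  rw [Real.negMulLog]
  ring

theorem submod {α β γ : Type} [Fintype α] [Fintype β] [Fintype γ] [DecidableEq α] [DecidableEq β]
    [DecidableEq γ] {X : ℕ} (hX : 1 ≤ X) (f : ℕ → α) (g : ℕ → β) (y : ℕ → γ) :
    ent X (fun n => (f n, g n, y n)) + ent X y ≤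
      ent X (fun n => (f n, y n)) + ent X (fun n => (g n, y n)) := by
  classical
  set F : ℕ → α × β × γ := fun n => (f n, g n, y n) with hF
  set A : α × β × γ → ℝ := fun i => law X (fun n => (f n, y n)) (i.1, i.2.2) with hA
  set B : α × β × γ → ℝ := fun i => law X (fun n => (g n, y n)) (i.2.1, i.2.2) with hB
  set C : α × β × γ → ℝ := fun i => law X y i.2.2 with hC
  have hA0 : ∀ i, 0 ≤ A i := fun i => law_nonneg X _ _
  have hB0 : ∀ i, 0 ≤ B i := fun i => law_nonneg X _ _
  have hC0 : ∀ i, 0 ≤ C i := fun i => law_nonneg X _ _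
  have hpA : ∀ i, law X F i ≤ A i := by
    intro i
    refine submod_mono X _ _ _ _ ?_
    intro n hn
    rw [← hn]
  have hpB : ∀ i, law X F i ≤ B i := by
    intro i
    refine submod_mono X _ _ _ _ ?_
    intro n hn
    rw [← hn]
  have hpC : ∀ i, law X F i ≤ C i := by
    intro i
    refine submod_mono X _ _ _ _ ?_
    intro n hn
    rw [← hn]
  have hq : ∀ i, 0 ≤ A i * B i / C i := fun i => div_nonneg (mul_nonneg (hA0 i) (hB0 i)) (hC0 i)
  have hpq : ∀ i, A i * B i / C i = 0 → law X F i = 0 := by
    intro i hi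
    have h0 := law_nonneg X F i
    rcases div_eq_zero_iff.1 hi with h | h
    · rcases mul_eq_zero.1 h with h | h
      · exact le_antisymm (h ▸ hpA i) h0
      · exact le_antisymm (h ▸ hpB i) h0
    · exact le_antisymm (h ▸ hpC i) h0
  have hsum : ∑ i, A i * B i / C i = ∑ i, law X F i := by
    rw [law_sum hX F]
    rw [Fintype.sum_prod_type]
    simp only [Fintype.sum_prod_type]
    rw [Finset.sum_comm]
    have h1 : ∀ b : β, ∀ a : α, ∑ c : γ, A (a, b, c) * B (a, b, c) / C (a, b, c) =
        ∑ c : γ, law X (fun n => (f n, y n)) (a, c) * law X (fun n => (g n, y n)) (b, c) /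
          law X y c := fun b a => rfl
    simp only [h1]
    have h2 : ∀ b : β, ∑ a : α, ∑ c : γ, law X (fun n => (f n, y n)) (a, c) *
        law X (fun n => (g n, y n)) (b, c) / law X y c =
        ∑ c : γ, law X (fun n => (g n, y n)) (b, c) := by
      intro b
      rw [Finset.sum_comm]
      refine Finset.sum_congr rfl fun c _ => ?_
      have h3 : ∑ a : α, law X (fun n => (f n, y n)) (a, c) *
          law X (fun n => (g n, y n)) (b, c) / law X y c =
          (∑ a : α, law X (fun n => (f n, y n)) (a, c)) *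
          law X (fun n => (g n, y n)) (b, c) / law X y c := by
        rw [Finset.sum_mul, Finset.sum_div]
      rw [h3, law_snd X f y c]
      by_cases hc : law X y c = 0
      · have h4 : law X (fun n => (g n, y n)) (b, c) = 0 := by
          refine le_antisymm ?_ (law_nonneg X _ _)
          rw [← hc]
          refine submod_mono X _ _ _ _ ?_
          intro n hn
          exact (Prod.mk.inj hn).2
        rw [h4, mul_zero, zero_div]
      · rw [mul_div_assoc, mul_comm, div_mul_cancel₀ _ hc]
    simp only [h2]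
    rw [Finset.sum_comm]
    have h5 : ∀ c : γ, ∑ b : β, law X (fun n => (g n, y n)) (b, c) = law X y c :=
      fun c => law_snd X g y c
    simp only [h5]
    exact law_sum hX y
  have hG := gibbs (fun i => law X F i) (fun i => A i * B i / C i) (fun i => law_nonneg X F i) hq
    hpq hsum.le
  have hlog : ∀ i, law X F i * Real.log (A i * B i / C i) =
      law X F i * Real.log (A i) + law X F i * Real.log (B i) - law X F i * Real.log (C i) := by
    intro i
    by_cases h0 : law X F i = 0
    · rw [h0]; ring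
    · have hp : 0 < law X F i := lt_of_le_of_ne (law_nonneg X F i) (Ne.symm h0)
      have ha : 0 < A i := lt_of_lt_of_le hp (hpA i)
      have hb : 0 < B i := lt_of_lt_of_le hp (hpB i)
      have hc : 0 < C i := lt_of_lt_of_le hp (hpC i)
      rw [Real.log_div (mul_pos ha hb).ne' hc.ne', Real.log_mul ha.ne' hb.ne']
      ring
  have hS : ∑ i, law X F i * Real.log (A i * B i / C i) =
      - ent X (fun n => (f n, y n)) + - ent X (fun n => (g n, y n)) - (- ent X y) := by
    simp only [hlog]
    rw [Finset.sum_sub_distrib, Finset.sum_add_distrib]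
    have e1 := submod_ent X F (fun n => (f n, y n)) (fun i : α × β × γ => (i.1, i.2.2))
      (fun n => rfl)
    have e2 := submod_ent X F (fun n => (g n, y n)) (fun i : α × β × γ => (i.2.1, i.2.2))
      (fun n => rfl)
    have e3 := submod_ent X F y (fun i : α × β × γ => i.2.2) (fun n => rfl)
    rw [← e1, ← e2, ← e3]
  rw [hS] at hG
  have hE : ent X F = ∑ i, Real.negMulLog (law X F i) := rfl
  rw [← hE] at hG
  linarith

end MRA
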